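import Mathlib

/-!
# H77-UX-NIL: finite nilpotent groups

`nil_comm`: a `p`-element commutes with an element of order prime to `p`; `nil_split`: the
projection onto the Sylow `p`-subgroup.
-/

set_option autoImplicit false

namespace H77.UX

variable {G : Type} [Group G] [Finite G]

private theorem comp_one {H : Type} [Group H] {p q : ℕ} (hp : p.Prime) (hq : q.Prime) (hpq : p ≠ q)
    (hH : IsPGroup q H) (x : H) (k : ℕ) (hx : x ^ p ^ k = 1) : x = 1 := by
  obtain ⟨j, hj⟩ := hH x
  have h1 : orderOf x ∣ p ^ k := orderOf_dvd_of_pow_eq_one hx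
  have h2 : orderOf x ∣ q ^ j := orderOf_dvd_of_pow_eq_one hj
  have h3 : Nat.Coprime (p ^ k) (q ^ j) :=
    Nat.Coprime.pow _ _ ((Nat.coprime_primes hp hq).2 hpq)
  exact orderOf_eq_one_iff.1 (Nat.eq_one_of_dvd_coprimes h3 h1 h2)

private theorem comp_one' {H : Type} [Group H] {p m : ℕ} (hp : p.Prime) (hm : ¬ p ∣ m)
    (hH : IsPGroup p H) (x : H) (hx : x ^ m = 1) : x = 1 := by
  obtain ⟨j, hj⟩ := hH x
  have h1 : orderOf x ∣ m := orderOf_dvd_of_pow_eq_one hx
  have h2 : orderOf x ∣ p ^ j := orderOf_dvd_of_pow_eq_one hj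
  have h3 : Nat.Coprime (p ^ j) m := Nat.Coprime.pow_left _ ((Nat.Prime.coprime_iff_not_dvd hp).2 hm)
  exact orderOf_eq_one_iff.1 (Nat.eq_one_of_dvd_coprimes h3 h2 h1)

/-- a `p`-element and an element of order prime to `p` commute -/
theorem nil_comm (hnil : Group.IsNilpotent G) {p : ℕ} (hp : p.Prime) {a b : G}
    (ha : ∃ k, a ^ p ^ k = 1) (hb : ¬ p ∣ orderOf b) : a * b = b * a := by
  have : Fact p.Prime := ⟨hp⟩
  obtain ⟨e⟩ := ((Group.isNilpotent_of_finite_tfae (G := G)).out 0 4).1 hnil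
  obtain ⟨k, hk⟩ := ha
  apply e.symm.injective
  rw [map_mul, map_mul]
  funext q P
  rw [Pi.mul_apply, Pi.mul_apply, Pi.mul_apply, Pi.mul_apply]
  have hq : (q : ℕ).Prime := Nat.prime_of_mem_primeFactors q.2
  by_cases hpq : p = q
  · have h1 : e.symm b q P = 1 := by
      refine comp_one' hq (hpq ▸ hb) P.isPGroup' _ ?_
      · have h2 : e.symm (b ^ orderOf b) = 1 := by rw [pow_orderOf_eq_one, map_one]
        rw [map_pow] at h2
        exact congrFun (congrFun h2 q) P
    rw [h1, mul_one, one_mul]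
  · have h1 : e.symm a q P = 1 := by
      refine comp_one hp hq hpq P.isPGroup' _ k ?_
      have h2 : e.symm (a ^ p ^ k) = 1 := by rw [hk, map_one]
      rw [map_pow] at h2
      exact congrFun (congrFun h2 q) P
    rw [h1, mul_one, one_mul]

/-- a `p`-element is in the normal Sylow `p`-subgroup -/
theorem nil_mem (hnil : Group.IsNilpotent G) {p : ℕ} (hp : p.Prime) (S : Sylow p G) {a : G}
    (ha : ∃ k, a ^ p ^ k = 1) : a ∈ S := by
  have : Fact p.Prime := ⟨hp⟩
  have h := (Group.isNilpotent_of_finite_tfae (G := G)).out 0 3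
  have hSn : (S : Subgroup G).Normal := h.1 hnil p inferInstance S
  obtain ⟨k, hk⟩ := ha
  have hpg : IsPGroup p (Subgroup.zpowers a) := by
    rintro ⟨x, j, rfl⟩
    refine ⟨k, Subtype.ext ?_⟩
    change (a ^ j) ^ p ^ k = 1
    rw [← zpow_natCast, ← zpow_mul, mul_comm, zpow_mul, zpow_natCast, hk, one_zpow]
  obtain ⟨Q, hQ⟩ := hpg.exists_le_sylow
  have : Unique (Sylow p G) := Sylow.unique_of_normal S hSn
  have hQS : Q = S := Subsingleton.elim _ _
  rw [hQS] at hQ
  exact hQ (Subgroup.mem_zpowers a)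

theorem nil_normal (hnil : Group.IsNilpotent G) {p : ℕ} (hp : p.Prime) (S : Sylow p G) :
    (S : Subgroup G).Normal := by
  have : Fact p.Prime := ⟨hp⟩
  have h := (Group.isNilpotent_of_finite_tfae (G := G)).out 0 3
  exact h.1 hnil p inferInstance S

/-- the projection onto the Sylow `p`-subgroup -/
theorem nil_split (hnil : Group.IsNilpotent G) {p : ℕ} (hp : p.Prime) (hpG : p ∣ Nat.card G)
    (S : Sylow p G) : ∃ f : G →* S, (∀ x : S, f x = x) ∧ ∀ g : G, f g = 1 → ¬ p ∣ orderOf g := by
  have : Fact p.Prime := ⟨hp⟩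
  obtain ⟨e⟩ := ((Group.isNilpotent_of_finite_tfae (G := G)).out 0 4).1 hnil
  have hSn := nil_normal hnil hp S
  have hu : ∀ P : Sylow p G, P = S := by
    have : Unique (Sylow p G) := Sylow.unique_of_normal S hSn
    exact fun P => Subsingleton.elim _ _
  let q₀ : (Nat.card G).primeFactors :=
    ⟨p, Nat.mem_primeFactors.2 ⟨hp, hpG, Nat.card_pos.ne'⟩⟩
  let f₀ : G →* S :=
    { toFun := fun g => e.symm g q₀ S
      map_one' := by rw [map_one]; rfl
      map_mul' := fun a b => by rw [map_mul]; rfl }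
  have hf₀ : ∀ g, f₀ g = e.symm g q₀ S := fun g => rfl
  have inj : Function.Injective (f₀.comp (S : Subgroup G).subtype) := by
    rw [injective_iff_map_eq_one]
    intro x hx
    have hx' : e.symm (x : G) q₀ S = 1 := hx
    have h1 : e.symm (x : G) = 1 := by
      funext q P
      have hq : (q : ℕ).Prime := Nat.prime_of_mem_primeFactors q.2
      by_cases hpq : p = q
      · have hqq : q = q₀ := Subtype.ext hpq.symm
        subst hqq
        rw [hu P]
        exact hx'
      · obtain ⟨k, hk⟩ := S.isPGroup' x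
        refine comp_one hp hq hpq P.isPGroup' _ k ?_
        have h2 : e.symm ((x : G) ^ p ^ k) = 1 := by
          have h3 : ((x ^ p ^ k : S) : G) = 1 := by rw [hk]; rfl
          rw [← Subgroup.coe_pow, h3, map_one]
        rw [map_pow] at h2
        exact congrFun (congrFun h2 q) P
    apply Subtype.ext
    have h4 := congrArg e h1
    rw [MulEquiv.apply_symm_apply, map_one] at h4
    exact h4
  have bij : Function.Bijective (f₀.comp (S : Subgroup G).subtype) :=
    ⟨inj, Finite.surjective_of_injective inj⟩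
  let σ : S ≃* S := MulEquiv.ofBijective (f₀.comp (S : Subgroup G).subtype) bij
  refine ⟨σ.symm.toMonoidHom.comp f₀, fun x => ?_, fun g hg hpg => ?_⟩
  · change σ.symm (f₀ x) = x
    rw [MulEquiv.symm_apply_eq]
    rfl
  · have h1 : f₀ g = 1 := by
      have h2 : σ.symm (f₀ g) = 1 := hg
      rw [MulEquiv.symm_apply_eq, map_one] at h2
      exact h2
    obtain ⟨m, hm⟩ := hpg
    have hg0 : 0 < orderOf g := orderOf_pos g
    have hy : (g ^ m) ^ p ^ 1 = 1 := by
      rw [pow_one, ← pow_mul, mul_comm, ← hm, pow_orderOf_eq_one]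
    have hyS := nil_mem hnil hp S ⟨1, hy⟩
    have h3 : (⟨g ^ m, hyS⟩ : S) = 1 := by
      apply inj
      rw [map_one]
      change f₀ (g ^ m) = 1
      rw [map_pow, h1, one_pow]
    have h4 : g ^ m = 1 := congrArg Subtype.val h3
    have h5 : orderOf g ∣ m := orderOf_dvd_of_pow_eq_one h4
    have hm0 : 0 < m := by
      rcases Nat.eq_zero_or_pos m with h | h
      · rw [h, mul_zero] at hm
        omega
      · exact h
    have h6 := Nat.le_of_dvd hm0 h5
    have h7 := hp.two_le
    nlinarith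

end H77.UX
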