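import Pool.Agent.H38.ML.Prime
import Pool.Agent.H38.ML.RegInd
import Pool.Agent.H77.UX.NIL

/-!
# H77-UX-TRG: the elements of least index of a nilpotent transitive group have the same prime order

`Fx g` is the number of fixed points. `q * ind g = (q - 1) * (n - Fx g)` for `g` of prime order `q`.
For a prime `q` which does not divide the order of `z ∈ G` the `q`-part of `n` divides `Fx z`, because the
Sylow `q`-subgroup acts on the fixed points of `z` and its orbits have length divisible by the `q`-part of `n`.
-/

set_option autoImplicit false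

namespace H77.UX

open H38.ML

/-- the number of fixed points -/
noncomputable def Fx {n : ℕ} (g : Equiv.Perm (Fin n)) : ℕ := Nat.card {x : Fin n // g x = x}

theorem Fx_le {n : ℕ} (g : Equiv.Perm (Fin n)) : Fx g ≤ n := by
  have := Nat.card_le_card_of_injective
    (fun x : {x : Fin n // g x = x} => (x : Fin n)) Subtype.val_injective
  rwa [Nat.card_fin] at this

/-- Burnside for a group of prime order -/
theorem burnside {n : ℕ} (g : Equiv.Perm (Fin n)) (hq : (orderOf g).Prime) :
    orbs (Subgroup.zpowers g) * orderOf g = n + (orderOf g - 1) * Fx g := by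
  classical
  unfold Fx
  have : Fintype (Subgroup.zpowers g) := Fintype.ofFinite _
  have : Fintype (Quotient (MulAction.orbitRel (Subgroup.zpowers g) (Fin n))) :=
    Fintype.ofFinite _
  have h := MulAction.sum_card_fixedBy_eq_card_orbits_mul_card_group (Subgroup.zpowers g) (Fin n)
  have hc : Fintype.card (Subgroup.zpowers g) = orderOf g := by
    rw [← Nat.card_eq_fintype_card, Nat.card_zpowers]
  have ho : orbs (Subgroup.zpowers g) =
      Fintype.card (Quotient (MulAction.orbitRel (Subgroup.zpowers g) (Fin n))) := by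
    unfold orbs
    rw [← Nat.card_eq_fintype_card]
  rw [ho, ← hc, ← h, ← Finset.add_sum_erase _ _ (Finset.mem_univ (1 : Subgroup.zpowers g))]
  congr 1
  · have : MulAction.fixedBy (Fin n) (1 : Subgroup.zpowers g) = Set.univ := by
      ext x
      simp
    rw [← Nat.card_eq_fintype_card, this, Nat.card_univ, Nat.card_fin]
  · have h1 : ∀ a ∈ (Finset.univ : Finset (Subgroup.zpowers g)).erase 1,
        Fintype.card (MulAction.fixedBy (Fin n) a) = Nat.card {x : Fin n // g x = x} := by
      intro a ha
      rw [← Nat.card_eq_fintype_card]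
      have ha1 : a ≠ 1 := Finset.ne_of_mem_erase ha
      obtain ⟨a, haz⟩ := a
      obtain ⟨k, rfl⟩ := Subgroup.mem_zpowers_iff.1 haz
      have hk : ¬ ((orderOf g : ℕ) : ℤ) ∣ k := by
        intro hd
        apply ha1
        apply Subtype.ext
        exact orderOf_dvd_iff_zpow_eq_one.1 hd
      have hco : IsCoprime k ((orderOf g : ℕ) : ℤ) :=
        ((Prime.coprime_iff_not_dvd (Nat.prime_iff_prime_int.1 hq)).2 hk).symm
      obtain ⟨u, v, huv⟩ := hco
      refine Nat.card_congr (Equiv.subtypeEquivRight fun x => ?_)
      constructor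
      · intro hx
        have hx' : (g ^ k) x = x := hx
        have h2 : g = (g ^ k) ^ u * (g ^ (orderOf g)) ^ v := by
          rw [← zpow_natCast g, ← zpow_mul, ← zpow_mul, ← zpow_add]
          conv_lhs => rw [← zpow_one g, ← huv]
          congr 1
          ring
        rw [h2, pow_orderOf_eq_one, one_zpow, mul_one]
        exact Equiv.Perm.zpow_apply_eq_self_of_apply_eq_self hx' _
      · intro hx
        change (g ^ k) x = x
        exact Equiv.Perm.zpow_apply_eq_self_of_apply_eq_self hx _
    rw [Finset.sum_congr rfl h1, Finset.sum_const, smul_eq_mul,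
      Finset.card_erase_of_mem (Finset.mem_univ _), Finset.card_univ]

/-- the index of an element of prime order -/
theorem ind_prime {n : ℕ} (g : Equiv.Perm (Fin n)) (hq : (orderOf g).Prime) :
    orderOf g * ind g = (orderOf g - 1) * (n - Fx g) := by
  have hb := burnside g hq
  have hFn := Fx_le g
  have horb : orbs (Subgroup.zpowers g) ≤ n := by
    have h2 := Nat.card_le_card_of_surjective _ (Quotient.mk_surjective
      (s := MulAction.orbitRel (Subgroup.zpowers g) (Fin n)))
    rw [Nat.card_fin] at h2
    exact h2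
  have hq1 : 1 ≤ orderOf g := hq.one_lt.le
  unfold ind
  zify [horb, hFn, hq1]
  zify [hq1] at hb
  linear_combination -hb

variable {n : ℕ} {G : Subgroup (Equiv.Perm (Fin n))}

/-- the `q`-part of `n` divides the number of fixed points of an element of order prime to `q` -/
theorem dvd_Fx (hn : n ≠ 0) (hG : MulAction.IsPretransitive G (Fin n))
    (hnil : Group.IsNilpotent G) {q : ℕ} (hq : q.Prime) (z : G) (hz : ¬ q ∣ orderOf z) :
    q ^ n.factorization q ∣ Fx (z : Equiv.Perm (Fin n)) := by
  classical
  have : Fact q.Prime := ⟨hq⟩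
  obtain ⟨S⟩ : Nonempty (Sylow q G) := inferInstance
  have hcm : ∀ s : S, ∀ x : Fin n, ((s : G) : Equiv.Perm (Fin n)) ((z : Equiv.Perm (Fin n)) x) =
      (z : Equiv.Perm (Fin n)) (((s : G) : Equiv.Perm (Fin n)) x) := by
    intro s x
    obtain ⟨k, hk⟩ := S.isPGroup' s
    have hk' : (s : G) ^ q ^ k = 1 := by
      rw [← Subgroup.coe_pow, hk]
      rfl
    have h1 := nil_comm hnil hq ⟨k, hk'⟩ hz
    have h2 : (((s : G) * z : G) : Equiv.Perm (Fin n)) x = ((z * (s : G) : G) : Equiv.Perm (Fin n)) x := by
      rw [h1]
    exact h2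
  let Y : Type := {x : Fin n // (z : Equiv.Perm (Fin n)) x = x}
  let act : MulAction S Y :=
    { smul := fun s y => ⟨((s : G) : Equiv.Perm (Fin n)) y.1, by
        have h := hcm s y.1
        rw [y.2] at h
        exact h.symm⟩
      one_smul := fun y => rfl
      mul_smul := fun s t y => rfl }
  have hsm : ∀ (s : S) (y : Y), ((s • y : Y) : Fin n) = ((s : G) : Equiv.Perm (Fin n)) y.1 :=
    fun s y => rfl
  have : Fintype (MulAction.orbitRel.Quotient S Y) := Fintype.ofFinite _
  have e := MulAction.selfEquivSigmaOrbitsQuotientStabilizer S Y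
  have h1 := Nat.card_congr e
  have hF : Fx (z : Equiv.Perm (Fin n)) = Nat.card Y := rfl
  rw [hF, h1, Nat.card_sigma]
  refine Finset.dvd_sum fun ω _ => ?_
  obtain ⟨y, hy⟩ : ∃ y : Y, y = ω.out := ⟨_, rfl⟩
  rw [← hy]
  -- the stabiliser of `y` in `S` embeds in the stabiliser of the point
  set H := MulAction.stabilizer G y.1 with hH
  have hidx : H.index = n := by
    rw [hH, MulAction.index_stabilizer_of_transitive G y.1, Nat.card_fin]
  have hcardG : Nat.card H * n = Nat.card G := by
    have h0 := H.card_mul_index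
    rwa [hidx] at h0
  have hH0 : Nat.card H ≠ 0 := Nat.card_pos.ne'
  have hG0 : Nat.card G ≠ 0 := Nat.card_pos.ne'
  have hfac : (Nat.card H).factorization q + n.factorization q = (Nat.card G).factorization q := by
    rw [← hcardG, Nat.factorization_mul hH0 hn, Finsupp.add_apply]
  have hS : Nat.card S = q ^ (Nat.card G).factorization q := S.card_eq_multiplicity
  let K : Subgroup S := MulAction.stabilizer S y
  have hKp : IsPGroup q K := S.isPGroup'.to_subgroup K
  obtain ⟨b, hb⟩ := IsPGroup.iff_card.1 hKp
  have hKH : Nat.card K ∣ Nat.card H := by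
    let f : K →* H :=
      { toFun := fun k => ⟨((k : S) : G), by
          rw [hH, MulAction.mem_stabilizer_iff]
          have h := k.2
          have h2 := congrArg Subtype.val (MulAction.mem_stabilizer_iff.1 h)
          exact h2⟩
        map_one' := rfl
        map_mul' := fun _ _ => rfl }
    refine Subgroup.card_dvd_of_injective f ?_
    intro a a' h
    apply Subtype.ext
    apply Subtype.ext
    exact congrArg (fun w : H => (w : G)) h
  have hb1 : b ≤ (Nat.card H).factorization q := by
    rw [hb] at hKH
    exact (hq.pow_dvd_iff_le_factorization hH0).1 hKH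
  have h3 : Nat.card (S ⧸ K) * Nat.card K = Nat.card S := (Subgroup.card_eq_card_quotient_mul_card_subgroup K).symm
  have h4 : Nat.card (S ⧸ K) * q ^ b = q ^ (n.factorization q) * q ^ ((Nat.card H).factorization q) := by
    rw [← hb, h3, hS, ← hfac, pow_add, mul_comm]
  have h5 : q ^ (n.factorization q) * q ^ b ∣ Nat.card (S ⧸ K) * q ^ b := by
    rw [h4]
    exact Nat.mul_dvd_mul_left _ (pow_dvd_pow q hb1)
  exact Nat.dvd_of_mul_dvd_mul_right (pow_pos hq.pos b) h5

/-- the elements of least index of a nilpotent transitive group have the same order -/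
theorem trg (hn : 2 ≤ n) (hG : MulAction.IsPretransitive G (Fin n))
    (hnil : Group.IsNilpotent G) (g g' : G) (hg : g ≠ 1) (hg' : g' ≠ 1)
    (h : ind (g : Equiv.Perm (Fin n)) = indG G) (h' : ind (g' : Equiv.Perm (Fin n)) = indG G) :
    orderOf g = orderOf g' := by
  by_contra hne
  have hl := prime_of_least G g hg h
  have hl' := prime_of_least G g' hg' h'
  have ho : orderOf (g : Equiv.Perm (Fin n)) = orderOf g := Subgroup.orderOf_coe g
  have ho' : orderOf (g' : Equiv.Perm (Fin n)) = orderOf g' := Subgroup.orderOf_coe g'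
  have i1 := ind_prime (g : Equiv.Perm (Fin n)) (by rw [ho]; exact hl)
  have i2 := ind_prime (g' : Equiv.Perm (Fin n)) (by rw [ho']; exact hl')
  rw [ho] at i1
  rw [ho'] at i2
  have hn0 : n ≠ 0 := by omega
  set l := orderOf g with hldef
  set l' := orderOf g' with hldef'
  set I := indG G with hI
  rw [h] at i1
  rw [h'] at i2
  set m := n - Fx (g : Equiv.Perm (Fin n)) with hm
  set v := n.factorization l with hv
  have hnl : l ^ v ∣ n := Nat.ordProj_dvd n l
  have hI0 : 0 < I := by
    rw [← h]
    exact ind_pos _ (fun h => hg (Subtype.ext h))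
  -- `l ^ v ∣ I`
  have hll' : ¬ l ∣ l' := fun hd => hne ((Nat.prime_dvd_prime_iff_eq hl hl').1 hd)
  have d1 : l ^ v ∣ Fx (g' : Equiv.Perm (Fin n)) := dvd_Fx hn0 hG hnil hl g' hll'
  have d2 : l ^ v ∣ l' * I := by
    rw [i2]
    exact Dvd.dvd.mul_left (Nat.dvd_sub hnl d1) _
  have d3 : l ^ v ∣ I :=
    (Nat.Coprime.pow_left v ((Nat.Prime.coprime_iff_not_dvd hl).2 hll')).dvd_of_dvd_mul_left d2
  -- `l ^ (v + 1) ∣ m`
  have hl1 : 1 < l := hl.one_lt
  have d4 : l ^ (v + 1) ∣ m := by
    have h1 : l ^ (v + 1) ∣ (l - 1) * m := by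
      rw [← i1, pow_succ, mul_comm]
      exact Nat.mul_dvd_mul_left l d3
    have h2 : ¬ l ∣ l - 1 := fun hd => by
      have := Nat.le_of_dvd (by omega) hd
      omega
    exact (Nat.Coprime.pow_left (v + 1) ((Nat.Prime.coprime_iff_not_dvd hl).2 h2)).dvd_of_dvd_mul_left h1
  have hm0 : m ≠ 0 := by
    intro h0
    rw [h0, mul_zero] at i1
    rcases Nat.mul_eq_zero.1 i1 with h1 | h1
    · omega
    · omega
  have hln : l * n ∣ m := by
    rw [← Nat.factorization_le_iff_dvd (by positivity) hm0]
    intro q
    by_cases hq : q.Prime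
    · rw [Nat.factorization_mul (by omega) hn0, Finsupp.add_apply]
      by_cases hql : q = l
      · rw [hql, hl.factorization_self, ← hv]
        have := (hl.pow_dvd_iff_le_factorization hm0).1 d4
        omega
      · have h1 : l.factorization q = 0 := by
          rw [Nat.Prime.factorization hl, Finsupp.single_apply, if_neg (Ne.symm hql)]
        rw [h1, zero_add]
        have h2 : q ^ n.factorization q ∣ m := by
          rw [hm]
          refine Nat.dvd_sub (Nat.ordProj_dvd n q) (dvd_Fx hn0 hG hnil hq g ?_)
          rw [← hldef]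
          exact fun hd => hql ((Nat.prime_dvd_prime_iff_eq hq hl).1 hd)
        exact (hq.pow_dvd_iff_le_factorization hm0).1 h2
    · rw [Nat.factorization_eq_zero_of_not_prime _ hq]
      exact Nat.zero_le _
  have h1 := Nat.le_of_dvd (Nat.pos_of_ne_zero hm0) hln
  have h2 : m ≤ n := Nat.sub_le _ _
  nlinarith

end H77.UX
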