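import Pool.Agent.H77.UX.TDB
import Pool.Agent.H77.UX.TRG
import Pool.Agent.H77.UN.Br
import Pool.Agent.H77.GN.NFinM

/-!
# H77-UX-CASE: nilpotent transitive groups whose Sylow `p`-subgroup has an abelian subgroup of index `p`

`p` is the order of the elements of least index (all have the same prime order, `trg`), `S` the Sylow
`p`-subgroup, `A < S` abelian of index `p`, `f : G → S` the projection (`nil_split`), `M = f⁻¹(A)`.

Lower bound. (i) No element of order `p` has a fixed point: the elements of least index are the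
elements of order `p`, `H77.UN.lo_b` with `N = ⊥`, `G = S × (G / S)`. (ii) All elements of order `p` with a
fixed point lie in `A`: so do the elements of least index, `lower_bound` with `T = A`, `N = ⊥`. (iii) There is
`y ∉ A` of order `p` with a fixed point `x₀`. The stabiliser `H` of `x₀` meets `A` trivially, since
`H ∩ A` is normalised by `A`, by `y` and by the elements of order prime to `p`, so normal in `G`. So
`H ∩ S = ⟨y⟩` and the elements of least index are the conjugates of the powers `y^k ≠ 1`: `tdb`.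
Upper bound: `H77.GN.gmain_mx`.
-/

set_option autoImplicit false

open scoped NumberField
open H38.ML

noncomputable section

namespace H77.UX

section grp

variable {G : Type} [Group G] [Finite G]

/-- the data of a nilpotent group -/
structure ND (p : ℕ) (S A : Subgroup G) (f : G →* G) : Prop where
  hp : p.Prime
  memS : ∀ a : G, (∃ k, a ^ p ^ k = 1) ↔ a ∈ S
  nS : S.Normal
  fS : ∀ g, f g ∈ S
  fx : ∀ x ∈ S, f x = x
  ker : ∀ g, f g = 1 → ¬ p ∣ orderOf g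
  com : ∀ r, f r = 1 → ∀ x ∈ S, r * x = x * r
  AS : A ≤ S
  nA : A.Normal
  cA : ∀ a ∈ A, ∀ b ∈ A, a * b = b * a
  idx : (A.comap f).index = p
  gen : ∀ y ∈ S, y ∉ A → ∀ x ∈ S, ∃ k : ℕ, y ^ k * x ∈ A

theorem nd_of (hnil : Group.IsNilpotent G) {p : ℕ} (hp : p.Prime) (hpG : p ∣ Nat.card G)
    (S : Sylow p G) (A : Subgroup S) (hi : A.index = p) (hA : ∀ a ∈ A, ∀ b ∈ A, a * b = b * a) :
    ∃ f : G →* G, ND p (S : Subgroup G) (A.map (S : Subgroup G).subtype) f := by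
  have : Fact p.Prime := ⟨hp⟩
  obtain ⟨f₀, hf₀, hk₀⟩ := nil_split hnil hp hpG S
  have hSn := nil_normal hnil hp S
  have hAn : A.Normal := by
    apply Subgroup.normal_of_index_eq_minFac_card
    obtain ⟨k, hk⟩ := IsPGroup.iff_card.mp S.isPGroup'
    have hn0 : k ≠ 0 := by
      rintro rfl
      have h1 : A.index ∣ Nat.card S := Subgroup.index_dvd_card A
      rw [hi, hk, pow_zero, Nat.dvd_one] at h1
      exact hp.one_lt.ne' h1
    rw [hi, hk, Nat.Prime.pow_minFac hp hn0]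
  have hmem : ∀ a : G, (∃ k, a ^ p ^ k = 1) ↔ a ∈ (S : Subgroup G) := by
    intro a
    refine ⟨fun h => nil_mem hnil hp S h, fun h => ?_⟩
    obtain ⟨k, hk⟩ := S.isPGroup' ⟨a, h⟩
    exact ⟨k, congrArg Subtype.val hk⟩
  have hcom : ∀ r, f₀ r = 1 → ∀ x ∈ (S : Subgroup G), r * x = x * r := fun r hr x hx =>
    (nil_comm hnil hp ((hmem x).2 hx) (hk₀ r hr)).symm
  let f : G →* G := (S : Subgroup G).subtype.comp f₀
  have hf : ∀ g, f g = f₀ g := fun g => rfl
  have hf1 : ∀ g, f g = 1 → f₀ g = 1 := fun g h => Subtype.ext h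
  have hcomap : (A.map (S : Subgroup G).subtype).comap f = A.comap f₀ := by
    ext g
    rw [Subgroup.mem_comap, Subgroup.mem_comap, Subgroup.mem_map]
    constructor
    · rintro ⟨a, ha, h⟩
      have : a = f₀ g := Subtype.ext h
      rwa [← this]
    · intro h
      exact ⟨f₀ g, h, rfl⟩
  have hsur : Function.Surjective f₀ := fun x => ⟨x, hf₀ x⟩
  refine ⟨f, hp, hmem, hSn, fun g => (f₀ g).2, fun x hx => ?_, fun g hg => hk₀ g (hf1 g hg),
    fun r hr => hcom r (hf1 r hr), ?_, ?_, ?_, ?_, ?_⟩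
  · rw [hf, hf₀ ⟨x, hx⟩]
  · rintro _ ⟨a, _, rfl⟩
    exact a.2
  · constructor
    rintro _ ⟨a, ha, rfl⟩ g
    have e1 : f₀ ((f₀ g : G)⁻¹ * g) = 1 := by
      rw [map_mul, map_inv, hf₀ (f₀ g), inv_mul_cancel]
    have e2 := hcom _ e1 _ a.2
    have e3 : g * (a : G) * g⁻¹ = (f₀ g : G) * a * (f₀ g : G)⁻¹ := by
      have e4 : g = (f₀ g : G) * ((f₀ g : G)⁻¹ * g) := by group
      calc g * (a : G) * g⁻¹ = (f₀ g : G) * (((f₀ g : G)⁻¹ * g) * a) * g⁻¹ := by group
        _ = (f₀ g : G) * (a * ((f₀ g : G)⁻¹ * g)) * g⁻¹ := by rw [e2]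
        _ = _ := by group
    refine ⟨f₀ g * a * (f₀ g)⁻¹, hAn.conj_mem a ha _, ?_⟩
    change (f₀ g : G) * a * (f₀ g : G)⁻¹ = g * (a : G) * g⁻¹
    rw [e3]
  · rintro _ ⟨a, ha, rfl⟩ _ ⟨b, hb, rfl⟩
    have := congrArg Subtype.val (hA a ha b hb)
    exact this
  · rw [hcomap, Subgroup.index_comap_of_surjective _ hsur, hi]
  · intro y hy hyA x hx
    -- the quotient `S / A` has order `p` and is generated by `y`
    have hq : Nat.card (S ⧸ A) = p := hi
    have hy1 : ((⟨y, hy⟩ : S) : S ⧸ A) ≠ 1 := by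
      intro h
      rw [QuotientGroup.eq_one_iff] at h
      exact hyA ⟨⟨y, hy⟩, h, rfl⟩
    have hz : Subgroup.zpowers ((⟨y, hy⟩ : S) : S ⧸ A) = ⊤ := zpowers_eq_top_of_prime_card hq hy1
    have h2 : ((⟨x, hx⟩ : S) : S ⧸ A)⁻¹ ∈ Submonoid.powers ((⟨y, hy⟩ : S) : S ⧸ A) := by
      rw [mem_powers_iff_mem_zpowers, hz]
      exact Subgroup.mem_top _
    obtain ⟨k, hk⟩ := h2
    refine ⟨k, ⟨⟨y, hy⟩ ^ k * ⟨x, hx⟩, (QuotientGroup.eq_one_iff _).1 ?_, rfl⟩⟩
    have hk' : ((⟨y, hy⟩ : S) : S ⧸ A) ^ k = ((⟨x, hx⟩ : S) : S ⧸ A)⁻¹ := hk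
    change ((⟨y, hy⟩ : S) : S ⧸ A) ^ k * ((⟨x, hx⟩ : S) : S ⧸ A) = 1
    rw [hk', inv_mul_cancel]

end grp

variable {n : ℕ}

/-- a least index element and its fixed points -/
theorem least_fx {G : Subgroup (Equiv.Perm (Fin n))} {p : ℕ} (hp : p.Prime) (g : G)
    (hg : orderOf g = p) :
    p * ind (g : Equiv.Perm (Fin n)) = (p - 1) * (n - Fx (g : Equiv.Perm (Fin n))) := by
  have h := ind_prime (g : Equiv.Perm (Fin n)) (by rw [Subgroup.orderOf_coe, hg]; exact hp)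
  rwa [Subgroup.orderOf_coe, hg] at h

theorem ind_le_iff {G : Subgroup (Equiv.Perm (Fin n))} {p : ℕ} (hp : p.Prime) (g h : G)
    (hg : orderOf g = p) (hh : orderOf h = p) :
    ind (g : Equiv.Perm (Fin n)) ≤ ind (h : Equiv.Perm (Fin n)) ↔
      Fx (h : Equiv.Perm (Fin n)) ≤ Fx (g : Equiv.Perm (Fin n)) := by
  have e1 := least_fx hp g hg
  have e2 := least_fx hp h hh
  have h1 := Fx_le (g : Equiv.Perm (Fin n))
  have h2 := Fx_le (h : Equiv.Perm (Fin n))
  have h3 := hp.two_le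
  obtain ⟨q, rfl⟩ : ∃ q, p = q + 2 := ⟨p - 2, by omega⟩
  rw [show q + 2 - 1 = q + 1 by omega] at e1 e2
  constructor
  · intro hle
    by_contra hcon
    push Not at hcon
    have h4 : (q + 1) * (n - Fx (h : Equiv.Perm (Fin n))) <
        (q + 1) * (n - Fx (g : Equiv.Perm (Fin n))) :=
      Nat.mul_lt_mul_of_pos_left (by omega) (by omega)
    have h5 := Nat.mul_le_mul_left (q + 2) hle
    omega
  · intro hle
    have h4 : (q + 1) * (n - Fx (g : Equiv.Perm (Fin n))) ≤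
        (q + 1) * (n - Fx (h : Equiv.Perm (Fin n))) := Nat.mul_le_mul_left _ (by omega)
    have h5 : (q + 2) * ind (g : Equiv.Perm (Fin n)) ≤ (q + 2) * ind (h : Equiv.Perm (Fin n)) := by
      omega
    exact Nat.le_of_mul_le_mul_left h5 (by omega)

theorem indG_le {G : Subgroup (Equiv.Perm (Fin n))} (g : G) (hg : g ≠ 1) :
    indG G ≤ ind (g : Equiv.Perm (Fin n)) :=
  Nat.sInf_le ⟨g, g.2, fun h => hg (Subtype.ext h), rfl⟩

theorem ne_one_of_order {G : Type} [Group G] {p : ℕ} (hp : p.Prime) {g : G} (hg : orderOf g = p) :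
    g ≠ 1 := by
  rintro rfl
  rw [orderOf_one] at hg
  exact hp.one_lt.ne hg

/-- the number of fixed points of a nontrivial power of an element of prime order -/
theorem Fx_pow {G : Subgroup (Equiv.Perm (Fin n))} {p : ℕ} (hp : p.Prime) (y : G)
    (hy : orderOf y = p) (k : ℕ) (hk : ¬ p ∣ k) :
    Fx ((y ^ k : G) : Equiv.Perm (Fin n)) = Fx (y : Equiv.Perm (Fin n)) := by
  unfold Fx
  have hyo : orderOf (y : Equiv.Perm (Fin n)) = p := by rw [Subgroup.orderOf_coe, hy]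
  refine Nat.card_congr (Equiv.subtypeEquivRight fun x => ?_)
  obtain ⟨m, hm⟩ : ∃ m : ℕ, y = (y ^ k) ^ m := by
    have hco : Nat.Coprime k p := ((Nat.Prime.coprime_iff_not_dvd hp).2 hk).symm
    obtain ⟨m, -, hm⟩ := Nat.exists_mul_mod_eq_one_of_coprime hco hp.one_lt
    refine ⟨m, ?_⟩
    rw [← pow_mul, ← pow_mod_orderOf, hy, hm, pow_one]
  constructor
  · intro hx
    rw [hm]
    exact Equiv.Perm.pow_apply_eq_self_of_apply_eq_self hx m
  · intro hx
    exact Equiv.Perm.pow_apply_eq_self_of_apply_eq_self hx k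

/-- fixed points of conjugates -/
theorem Fx_conj {G : Subgroup (Equiv.Perm (Fin n))} (h y : G) :
    Fx ((h * y * h⁻¹ : G) : Equiv.Perm (Fin n)) = Fx (y : Equiv.Perm (Fin n)) := by
  unfold Fx
  refine Nat.card_congr (Equiv.subtypeEquiv (h⁻¹ : Equiv.Perm (Fin n)) fun x => ?_)
  change (h : Equiv.Perm (Fin n)) ((y : Equiv.Perm (Fin n)) ((h : Equiv.Perm (Fin n))⁻¹ x)) = x ↔
    (y : Equiv.Perm (Fin n)) ((h : Equiv.Perm (Fin n))⁻¹ x) = (h : Equiv.Perm (Fin n))⁻¹ x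
  rw [Equiv.Perm.eq_inv_iff_eq]

/-- the third case: a complement of order `p` -/
theorem stab_case {G : Subgroup (Equiv.Perm (Fin n))} (hG : MulAction.IsPretransitive G (Fin n))
    {p : ℕ} {S A : Subgroup G} {f : G →* G} (D : ND p S A f) (y : G) (hyS : y ∈ S) (hyA : y ∉ A)
    (x₀ : Fin n) (hx₀ : y • x₀ = x₀) (g : G) (hg : orderOf g = p) (x : Fin n) (hx : g • x = x) :
    ∃ (h : G) (k : ℕ), h⁻¹ * g * h = y ^ k := by
  -- `H ∩ A` is normal in `G`
  set H : Subgroup G := MulAction.stabilizer G x₀ with hH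
  have hHy : y ∈ H := MulAction.mem_stabilizer_iff.2 hx₀
  have hdec : ∀ w : G, ∃ (a r : G) (k : ℕ), a ∈ A ∧ (∀ s ∈ S, r * s = s * r) ∧ w = (y ^ k)⁻¹ * a * r := by
    intro w
    obtain ⟨k, hk⟩ := D.gen y hyS hyA (f w) (D.fS w)
    refine ⟨y ^ k * f w, (f w)⁻¹ * w, k, hk, D.com _ ?_, by group⟩
    rw [map_mul, map_inv, D.fx (f w) (D.fS w), inv_mul_cancel]
  have hnor : ∀ t : G, t ∈ H → t ∈ A → ∀ w : G, w * t * w⁻¹ ∈ H := by
    intro t htH htA w
    obtain ⟨a, r, k, ha, hr, rfl⟩ := hdec w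
    have e1 : r * t * r⁻¹ = t := by rw [hr t (D.AS htA), mul_inv_cancel_right]
    have e2 : a * t * a⁻¹ = t := by rw [D.cA a ha t htA, mul_inv_cancel_right]
    have e3 : (y ^ k)⁻¹ * a * r * t * ((y ^ k)⁻¹ * a * r)⁻¹ = (y ^ k)⁻¹ * t * (y ^ k) := by
      calc (y ^ k)⁻¹ * a * r * t * ((y ^ k)⁻¹ * a * r)⁻¹ =
          (y ^ k)⁻¹ * (a * (r * t * r⁻¹) * a⁻¹) * (y ^ k) := by group
        _ = _ := by rw [e1, e2]
    rw [e3]
    exact H.mul_mem (H.mul_mem (H.inv_mem (H.pow_mem hHy k)) htH) (H.pow_mem hHy k)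
  have htriv : ∀ t : G, t ∈ H → t ∈ A → t = 1 := by
    intro t htH htA
    apply Subtype.ext
    apply Equiv.ext
    intro x'
    obtain ⟨w, hw⟩ := MulAction.exists_smul_eq G x₀ x'
    have h1 := hnor t htH htA w⁻¹
    rw [inv_inv, hH, MulAction.mem_stabilizer_iff] at h1
    have h2 : t • x' = x' := by
      rw [← hw]
      calc t • w • x₀ = w • ((w⁻¹ * t * w) • x₀) := by
            rw [← mul_smul, ← mul_smul]
            congr 1
            group
        _ = w • x₀ := by rw [h1]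
    exact h2
  obtain ⟨w, hw⟩ := MulAction.exists_smul_eq G x₀ x
  have hgw : w⁻¹ * g * w ∈ H := by
    rw [hH, MulAction.mem_stabilizer_iff, mul_smul, mul_smul, hw, hx, ← hw, inv_smul_smul]
  have hgS : w⁻¹ * g * w ∈ S := by
    apply (D.memS _).1
    refine ⟨1, ?_⟩
    rw [pow_one, ← hg]
    have h1 : (w⁻¹ * g * w) = w⁻¹ * g * (w⁻¹)⁻¹ := by group
    rw [h1, conj_pow, pow_orderOf_eq_one, mul_one, mul_inv_cancel]
  obtain ⟨k, hk⟩ := D.gen y hyS hyA _ hgS
  have h1 := htriv _ (H.mul_mem (H.pow_mem hHy k) hgw) hk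
  -- `w⁻¹ g w = (y ^ k)⁻¹` is a power of `y`
  have h2 : w⁻¹ * g * w = (y ^ k)⁻¹ := (inv_eq_of_mul_eq_one_right h1).symm
  obtain ⟨j, hj⟩ : ∃ j : ℕ, (y ^ k)⁻¹ = y ^ j := by
    have h3 : (y ^ k)⁻¹ ∈ Submonoid.powers y := by
      rw [mem_powers_iff_mem_zpowers]
      exact Subgroup.inv_mem _ (Subgroup.pow_mem _ (Subgroup.mem_zpowers y) k)
    obtain ⟨j, hj⟩ := h3
    exact ⟨j, hj.symm⟩
  exact ⟨w, j, by rw [h2, hj]⟩

end H77.UX
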