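import Pool.Agent.H77.UX.CASE

/-!
# H77-UX-CUBE: nilpotent transitive groups of degree not divisible by `p ^ 3`

A Sylow `p`-subgroup acts faithfully on each of its orbits, of length `p` or `p ^ 2`; it has an
abelian subgroup of index `p`.
-/

set_option autoImplicit false

namespace H77.UX

/-- a `p`-group with a core-free subgroup of index dividing `p ^ 2` has an abelian subgroup of
index `p` -/
theorem core_sq {P : Type} [Group P] [Finite P] {p : ℕ} (hp : p.Prime) (hP : IsPGroup p P)
    (hP1 : p ∣ Nat.card P) (H : Subgroup P) (hH : H.index ∣ p ^ 2)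
    (hcore : ∀ k : P, (∀ s : P, s⁻¹ * k * s ∈ H) → k = 1) :
    ∃ A : Subgroup P, A.index = p ∧ ∀ a ∈ A, ∀ b ∈ A, a * b = b * a := by
  have : Fact p.Prime := ⟨hp⟩
  obtain ⟨k, hk⟩ := IsPGroup.iff_card.mp hP
  have hk0 : k ≠ 0 := by
    rintro rfl
    rw [hk, pow_zero, Nat.dvd_one] at hP1
    exact hp.one_lt.ne' hP1
  obtain ⟨j, hj⟩ := IsPGroup.iff_card.mp (hP.to_subgroup H)
  have hcard : p ^ j * H.index = p ^ k := by
    rw [← hj, ← hk]
    exact Subgroup.card_mul_index H
  have hjk : j < k := by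
    have h1 : p ^ j ∣ p ^ k := ⟨_, hcard.symm⟩
    have h2 : j ≤ k := (Nat.pow_dvd_pow_iff_le_right hp.one_lt).1 h1
    rcases h2.lt_or_eq with h | rfl
    · exact h
    · exfalso
      have h3 : H.index = 1 := by
        have h4 : p ^ j * H.index = p ^ j * 1 := by rw [hcard, mul_one]
        exact Nat.eq_of_mul_eq_mul_left (pow_pos hp.pos j) h4
      have h5 : H = ⊤ := Subgroup.index_eq_one.1 h3
      have h6 : ∀ x : P, x = 1 := fun x => hcore x (fun s => by rw [h5]; exact Subgroup.mem_top _)
      have h7 : Nat.card P = 1 := Nat.card_eq_one_iff_unique.2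
        ⟨⟨fun a b => by rw [h6 a, h6 b]⟩, ⟨1⟩⟩
      rw [h7, Nat.dvd_one] at hP1
      exact hp.one_lt.ne' hP1
  have hkj : k ≤ j + 2 := by
    have h1 : p ^ k ∣ p ^ (j + 2) := by
      rw [← hcard, pow_add]
      exact mul_dvd_mul_left _ hH
    exact (Nat.pow_dvd_pow_iff_le_right hp.one_lt).1 h1
  obtain ⟨M, hMc, hHM⟩ := Sylow.exists_subgroup_card_pow_prime_le (G := P) p (m := k - 1)
    (by rw [hk]; exact pow_dvd_pow p (Nat.sub_le k 1)) H hj (by omega)
  have hMi : M.index = p := by
    have h1 := Subgroup.card_mul_index M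
    rw [hMc, hk] at h1
    have h2 : p ^ k = p ^ (k - 1) * p := by
      rw [← pow_succ, Nat.sub_add_cancel (Nat.pos_of_ne_zero hk0)]
    rw [h2] at h1
    exact Nat.eq_of_mul_eq_mul_left (pow_pos hp.pos _) h1
  have hMn : M.Normal := by
    apply Subgroup.normal_of_index_eq_minFac_card
    rw [hMi, hk, Nat.Prime.pow_minFac hp hk0]
  -- commutators of `M` lie in `H`
  have hcom : ∀ a ∈ M, ∀ b ∈ M, a * b * a⁻¹ * b⁻¹ ∈ H := by
    intro a ha b hb
    have hidx : (H.subgroupOf M).index ∣ p := by
      have h1 := Subgroup.card_mul_index (H.subgroupOf M)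
      have h2 : Nat.card (H.subgroupOf M) = p ^ j := by
        rw [← hj]
        exact Nat.card_congr (Subgroup.subgroupOfEquivOfLe hHM).toEquiv
      rw [h2, hMc] at h1
      have h3 : p ^ (k - 1) ∣ p ^ j * p := by
        rw [← pow_succ]
        exact pow_dvd_pow p (by omega)
      rw [← h1] at h3
      exact Nat.dvd_of_mul_dvd_mul_left (pow_pos hp.pos j) h3
    rcases (Nat.dvd_prime hp).1 hidx with h | h
    · have h1 : H.subgroupOf M = ⊤ := Subgroup.index_eq_one.1 h
      rw [Subgroup.subgroupOf_eq_top] at h1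
      exact h1 (M.mul_mem (M.mul_mem (M.mul_mem ha hb) (M.inv_mem ha)) (M.inv_mem hb))
    · have hn : (H.subgroupOf M).Normal := by
        apply Subgroup.normal_of_index_eq_minFac_card
        have hk1 : k - 1 ≠ 0 := by
          intro h0
          have h1 := Subgroup.card_mul_index (H.subgroupOf M)
          rw [h, hMc, h0, pow_zero] at h1
          have h2 : p ∣ 1 := ⟨_, by rw [mul_comm]; exact h1.symm⟩
          exact hp.one_lt.ne' (Nat.dvd_one.1 h2)
        rw [h, hMc, Nat.Prime.pow_minFac hp hk1]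
      have hc : IsCyclic (M ⧸ H.subgroupOf M) := isCyclic_of_prime_card (p := p) h
      have h2 : ∀ x y : M ⧸ H.subgroupOf M, x * y = y * x := by
        let _ := IsCyclic.commGroup (α := M ⧸ H.subgroupOf M)
        exact fun x y => mul_comm x y
      have h3 : (⟨a, ha⟩ * ⟨b, hb⟩ * (⟨a, ha⟩ : M)⁻¹ * (⟨b, hb⟩ : M)⁻¹) ∈ H.subgroupOf M := by
        rw [← QuotientGroup.eq_one_iff]
        have h4 := h2 (⟨a, ha⟩ : M) (⟨b, hb⟩ : M)
        rw [QuotientGroup.mk_mul, QuotientGroup.mk_mul, QuotientGroup.mk_mul, h4,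
          QuotientGroup.mk_inv, QuotientGroup.mk_inv]
        group
      exact h3
  refine ⟨M, hMi, fun a ha b hb => ?_⟩
  have h1 : a * b * a⁻¹ * b⁻¹ = 1 := by
    apply hcore
    intro s
    have e : s⁻¹ * (a * b * a⁻¹ * b⁻¹) * s =
        (s⁻¹ * a * s) * (s⁻¹ * b * s) * (s⁻¹ * a * s)⁻¹ * (s⁻¹ * b * s)⁻¹ := by group
    rw [e]
    have hs : ∀ x ∈ M, s⁻¹ * x * s ∈ M := by
      intro x hx
      have := hMn.conj_mem x hx s⁻¹
      rwa [inv_inv] at this
    exact hcom _ (hs a ha) _ (hs b hb)
  rw [mul_inv_eq_one, mul_inv_eq_iff_eq_mul] at h1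
  exact h1

variable {n : ℕ}

theorem cube (G : Subgroup (Equiv.Perm (Fin n))) (hG : MulAction.IsPretransitive G (Fin n))
    (hnil : Group.IsNilpotent G) {p : ℕ} (hp : p.Prime) (hpG : p ∣ Nat.card G) (hn0 : n ≠ 0)
    (hn : ¬ p ^ 3 ∣ n) :
    ∃ (S : Sylow p G) (A : Subgroup S), A.index = p ∧ ∀ a ∈ A, ∀ b ∈ A, a * b = b * a := by
  have : Fact p.Prime := ⟨hp⟩
  obtain ⟨S⟩ : Nonempty (Sylow p G) := inferInstance
  obtain ⟨f, hf, hk⟩ := nil_split hnil hp hpG S
  let x₀ : Fin n := ⟨0, Nat.pos_of_ne_zero hn0⟩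
  let St : Subgroup G := MulAction.stabilizer G x₀
  have hidx : St.index = n := by
    have h1 := MulAction.index_stabilizer_of_transitive G x₀
    rw [Nat.card_eq_fintype_card, Fintype.card_fin] at h1
    exact h1
  have hcard : Nat.card St * n = Nat.card G := by
    have h1 := Subgroup.card_mul_index St
    rwa [hidx] at h1
  refine ⟨S, core_sq hp S.isPGroup' ?_ (St.subgroupOf (S : Subgroup G)) ?_ ?_⟩
  · have h1 : Nat.card S = p ^ (Nat.card G).factorization p := S.card_eq_multiplicity
    rw [h1]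
    exact dvd_pow_self p (hp.factorization_pos_of_dvd Nat.card_pos.ne' hpG).ne'
  · -- the index
    obtain ⟨R⟩ : Nonempty (Sylow p St) := inferInstance
    have hR : Nat.card R = p ^ (Nat.card St).factorization p := R.card_eq_multiplicity
    have hRS : Nat.card R ∣ Nat.card (St.subgroupOf (S : Subgroup G)) := by
      let g : R →* St.subgroupOf (S : Subgroup G) :=
        { toFun := fun x => ⟨⟨((x : St) : G), nil_mem hnil hp S (by
            obtain ⟨k, hk⟩ := R.isPGroup' x
            refine ⟨k, ?_⟩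
            have h1 := congrArg (fun y : R => ((y : St) : G)) hk
            exact h1)⟩, (x : St).2⟩
          map_one' := rfl
          map_mul' := fun _ _ => rfl }
      have hg : Function.Injective g := by
        intro x y h
        have h1 := congrArg (fun z : St.subgroupOf (S : Subgroup G) => ((z : S) : G)) h
        exact Subtype.ext (Subtype.ext h1)
      rw [← Nat.card_range_of_injective hg]
      exact Subgroup.card_subgroup_dvd_card g.range
    have h1 := Subgroup.card_mul_index (St.subgroupOf (S : Subgroup G))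
    have h2 : Nat.card S = p ^ (Nat.card G).factorization p := S.card_eq_multiplicity
    have h3 : (Nat.card G).factorization p =
        (Nat.card St).factorization p + n.factorization p := by
      rw [← hcard, Nat.factorization_mul Nat.card_pos.ne' hn0, Finsupp.add_apply]
    have h4 : n.factorization p ≤ 2 := by
      by_contra hc
      exact hn ((hp.pow_dvd_iff_le_factorization hn0).2 (by omega))
    obtain ⟨m, hm⟩ := hRS
    have h5 : Nat.card R * (m * (St.subgroupOf (S : Subgroup G)).index) =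
        Nat.card R * p ^ n.factorization p := by
      rw [← mul_assoc, ← hm, h1, h2, h3, pow_add, ← hR]
    have h6 := Nat.eq_of_mul_eq_mul_left Nat.card_pos h5
    exact (Dvd.intro_left m h6).trans (pow_dvd_pow p h4)
  · -- the core
    intro k hk'
    apply Subtype.ext
    apply Subtype.ext
    apply Equiv.ext
    intro y
    obtain ⟨g, hg⟩ := MulAction.exists_smul_eq G x₀ y
    set r : G := ((f g : S) : G)⁻¹ * g with hr
    have hfr : f r = 1 := by
      rw [hr, map_mul, map_inv, hf (f g), inv_mul_cancel]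
    have hrc : ∀ x : S, r * (x : G) = (x : G) * r := by
      intro x
      obtain ⟨j, hj⟩ := S.isPGroup' x
      exact (nil_comm hnil hp ⟨j, congrArg Subtype.val hj⟩ (hk r hfr)).symm
    have hs : ((f g)⁻¹ * k * (f g) : S) ∈ St.subgroupOf (S : Subgroup G) := hk' (f g)
    have hs' : (((f g)⁻¹ * k * (f g) : S) : G) • x₀ = x₀ := hs
    have e : (k : G) * g = g * (((f g)⁻¹ * k * (f g) : S) : G) := by
      have e1 : g = ((f g : S) : G) * r := by rw [hr, mul_inv_cancel_left]
      have e2 := hrc ((f g)⁻¹ * k * (f g))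
      calc (k : G) * g = (k : G) * (((f g : S) : G) * r) := by rw [← e1]
        _ = ((f g : S) : G) * ((((f g)⁻¹ * k * (f g) : S) : G) * r) := by
            simp only [Subgroup.coe_mul, Subgroup.coe_inv]
            group
        _ = ((f g : S) : G) * (r * (((f g)⁻¹ * k * (f g) : S) : G)) := by rw [e2]
        _ = g * (((f g)⁻¹ * k * (f g) : S) : G) := by rw [← mul_assoc, ← e1]
    have h1 : (k : G) • y = y := by
      rw [← hg, ← mul_smul, e, mul_smul, hs']
    exact h1

end H77.UX
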