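import Pool.Agent.H77.UX.TDB

/-!
# H77-UX-TDE: `tdg` without the condition on the orders of the commutators
-/

set_option autoImplicit false

open scoped NumberField Pointwise
open H38.ML

noncomputable section

namespace H77.UX

section Group

variable {Q : Type} [Group Q]

/-- the crossed homomorphism `g ↦ g⁻¹ c g c⁻¹` -/
def dl (c g : Q) : Q := g⁻¹ * c * g * c⁻¹

theorem dl_mul (c g h : Q) : dl c (g * h) = h⁻¹ * dl c g * h * dl c h := by
  unfold dl; group

theorem dl_one (c : Q) : dl c 1 = 1 := by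
  unfold dl; group

theorem dl_cpow (c m : Q) (i : ℕ) : dl c (c ^ i * m) = dl c m := by
  unfold dl
  rw [mul_inv_rev]
  have e : (c ^ i)⁻¹ * c * c ^ i = c := by
    rw [mul_assoc, ← pow_succ', pow_succ, inv_mul_cancel_left]
  calc m⁻¹ * (c ^ i)⁻¹ * c * (c ^ i * m) * c⁻¹
      = m⁻¹ * ((c ^ i)⁻¹ * c * c ^ i) * m * c⁻¹ := by simp only [mul_assoc]
    _ = _ := by rw [e]

/-- the elements `c ^ i * m` -/
theorem dec [Finite Q] {p : ℕ} (hp : p.Prime) (M : Subgroup Q) (hM : M.Normal)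
    (hi : M.index = p) (c : Q) (hc : c ∉ M) (g : Q) : ∃ (i : ℕ) (m : Q), m ∈ M ∧ g = c ^ i * m := by
  have : Fact p.Prime := ⟨hp⟩
  have h1 : Nat.card (Q ⧸ M) = p := hi
  have h2 : ((c : Q ⧸ M)) ≠ 1 := fun h => hc ((QuotientGroup.eq_one_iff c).1 h)
  have h3 : (g : Q ⧸ M) ∈ Subgroup.zpowers (c : Q ⧸ M) := by
    rw [zpowers_eq_top_of_prime_card h1 h2]
    exact Subgroup.mem_top _
  rw [← mem_powers_iff_mem_zpowers] at h3
  obtain ⟨i, hi'⟩ := h3
  refine ⟨i, (c ^ i)⁻¹ * g, ?_, by group⟩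
  have h4 : ((c ^ i : Q) : Q ⧸ M) = g := hi'
  exact QuotientGroup.eq.1 h4

/-- the group theory: the part of order prime to `p` of `[c, M]` has a complement -/
theorem split [Finite Q] {p : ℕ} (hp : p.Prime) (M : Subgroup Q) (hM : M.Normal)
    (hi : M.index = p) (c : Q) (hc : c ∉ M) (hcp : c ^ p = 1)
    (hcen : ∀ m ∈ M, ∀ m' ∈ M, m' * dl c m = dl c m * m') :
    ∃ E C : Subgroup Q, E.Normal ∧ E ≤ M ∧ (∀ x ∈ E, ∀ m ∈ M, m * x = x * m) ∧
      (∀ x ∈ E, ∃ s : ℕ, s.Coprime p ∧ x ^ s = 1) ∧ C ⊔ E = ⊤ ∧ C ⊓ E = ⊥ ∧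
      ∀ m ∈ M, ∃ k : ℕ, (dl c m) ^ p ^ k ∈ E := by
  have hdM : ∀ m ∈ M, dl c m ∈ M := by
    intro m hm
    have e : dl c m = m⁻¹ * (c * m * c⁻¹) := by unfold dl; group
    rw [e]
    exact M.mul_mem (M.inv_mem hm) (hM.conj_mem _ hm c)
  have hmul : ∀ m ∈ M, ∀ m' ∈ M, dl c (m * m') = dl c m * dl c m' := by
    intro m hm m' hm'
    rw [dl_mul]
    congr 1
    rw [mul_assoc, ← hcen m hm m' hm', inv_mul_cancel_left]
  let D : Subgroup Q :=
    { carrier := {d | ∃ m ∈ M, dl c m = d}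
      mul_mem' := by
        rintro _ _ ⟨m, hm, rfl⟩ ⟨m', hm', rfl⟩
        exact ⟨m * m', M.mul_mem hm hm', hmul m hm m' hm'⟩
      one_mem' := ⟨1, M.one_mem, dl_one c⟩
      inv_mem' := by
        rintro _ ⟨m, hm, rfl⟩
        refine ⟨m⁻¹, M.inv_mem hm, ?_⟩
        rw [eq_comm, inv_eq_iff_mul_eq_one, ← hmul m hm _ (M.inv_mem hm), mul_inv_cancel, dl_one] }
  have hDM : ∀ d ∈ D, d ∈ M := by
    rintro _ ⟨m, hm, rfl⟩
    exact hdM m hm
  have hDc : ∀ d ∈ D, ∀ m ∈ M, m * d = d * m := by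
    rintro _ ⟨m, hm, rfl⟩ m' hm'
    exact hcen m hm m' hm'
  have hall : ∀ g : Q, dl c g ∈ D := by
    intro g
    obtain ⟨i, m, hm, rfl⟩ := dec hp M hM hi c hc g
    exact ⟨m, hm, (dl_cpow c m i).symm⟩
  have hDn : ∀ d ∈ D, ∀ g : Q, g * d * g⁻¹ ∈ D := by
    rintro _ ⟨m, hm, rfl⟩ g
    have e : g * dl c m * g⁻¹ = dl c (m * g⁻¹) * (dl c g⁻¹)⁻¹ := by
      rw [dl_mul]; group
    rw [e]
    exact D.mul_mem (hall _) (D.inv_mem (hall _))
  let E : Subgroup Q :=
    { carrier := {d | d ∈ D ∧ ∃ s : ℕ, s.Coprime p ∧ d ^ s = 1}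
      mul_mem' := by
        rintro x y ⟨hx, s, hs, hxs⟩ ⟨hy, t, ht, hyt⟩
        refine ⟨D.mul_mem hx hy, s * t, Nat.Coprime.mul_left hs ht, ?_⟩
        have hxy : Commute x y := (hDc y hy x (hDM x hx))
        rw [hxy.mul_pow, pow_mul, hxs, one_pow, one_mul, mul_comm s t, pow_mul, hyt, one_pow]
      one_mem' := ⟨D.one_mem, 1, Nat.coprime_one_left p, one_pow 1⟩
      inv_mem' := by
        rintro x ⟨hx, s, hs, hxs⟩
        exact ⟨D.inv_mem hx, s, hs, by rw [inv_pow, hxs, inv_one]⟩ }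
  let C : Subgroup Q :=
    { carrier := {g | ∃ k : ℕ, (dl c g) ^ p ^ k = 1}
      mul_mem' := by
        rintro g h ⟨k, hk⟩ ⟨l, hl⟩
        refine ⟨k + l, ?_⟩
        have h1 : h⁻¹ * dl c g * h ∈ D := by
          have := hDn _ (hall g) h⁻¹
          rwa [inv_inv] at this
        have hxy : Commute (h⁻¹ * dl c g * h) (dl c h) := (hDc _ (hall h) _ (hDM _ h1))
        have h2 : (h⁻¹ * dl c g * h) ^ p ^ (k + l) = 1 := by
          have e := conj_pow (i := p ^ (k + l)) (a := h⁻¹) (b := dl c g)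
          rw [inv_inv] at e
          rw [e, pow_add, pow_mul, hk, one_pow]
          group
        rw [dl_mul, hxy.mul_pow, h2, one_mul, add_comm k l, pow_add, pow_mul, hl, one_pow]
      one_mem' := ⟨0, by rw [dl_one, one_pow]⟩
      inv_mem' := by
        rintro g ⟨k, hk⟩
        refine ⟨k, ?_⟩
        have e : dl c g⁻¹ = (g * dl c g * g⁻¹)⁻¹ := by
          rw [eq_inv_iff_mul_eq_one]
          unfold dl
          group
        rw [e, inv_pow, conj_pow, hk]
        group }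
  have hED : ∀ x ∈ E, x ∈ D := fun x hx => hx.1
  have hEn : E.Normal := by
    constructor
    rintro x ⟨hx, s, hs, hxs⟩ g
    exact ⟨hDn x hx g, s, hs, by rw [conj_pow, hxs]; group⟩
  have hdE : ∀ x ∈ E, dl c x ∈ E := by
    intro x hx
    have e : dl c x = x⁻¹ * (c * x * c⁻¹) := by unfold dl; group
    rw [e]
    exact E.mul_mem (E.inv_mem hx) (hEn.conj_mem _ hx c)
  have hcop : ∀ (x : Q) (s k : ℕ), s.Coprime (p ^ k) → x ^ s = 1 → x ^ p ^ k = 1 → x = 1 := by
    intro x s k hs h1 h2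
    have h3 : orderOf x ∣ 1 := by
      rw [← hs]
      exact Nat.dvd_gcd (orderOf_dvd_of_pow_eq_one h1) (orderOf_dvd_of_pow_eq_one h2)
    exact orderOf_eq_one_iff.1 (Nat.dvd_one.1 h3)
  have hinj : ∀ x ∈ E, ∀ k : ℕ, (dl c x) ^ p ^ k = 1 → x = 1 := by
    rintro x hx k hk
    obtain ⟨hd, s, hs, hxs⟩ := hdE x hx
    have h1 : dl c x = 1 := hcop _ s k (Nat.Coprime.pow_right k hs) hxs hk
    obtain ⟨⟨m, hm, hmx⟩, t, ht, hxt⟩ := hx
    have h2 : Commute x c := by
      have h3 : x⁻¹ * c * x = c := by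
        unfold dl at h1
        exact mul_inv_eq_one.1 h1
      have h4 : c * x = x * c := by
        calc c * x = x * (x⁻¹ * c * x) := by group
          _ = x * c := by rw [h3]
      exact h4.symm
    have h5 : m⁻¹ * c * m = x * c := by
      rw [← hmx]
      unfold dl
      group
    have h6 : x ^ p = 1 := by
      have e1 : (m⁻¹ * c * m) ^ p = 1 := by
        have e := conj_pow (i := p) (a := m⁻¹) (b := c)
        rw [inv_inv] at e
        rw [e, hcp]
        group
      rw [h5, h2.mul_pow, hcp, mul_one] at e1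
      exact e1
    exact hcop x t 1 (by rwa [pow_one]) hxt (by rwa [pow_one])
  refine ⟨E, C, hEn, fun x hx => hDM x (hED x hx), fun x hx m hm => hDc x (hED x hx) m hm,
    fun x hx => hx.2, ?_, ?_, ?_⟩
  · rw [eq_top_iff]
    intro g _
    -- the order of `dl c g`
    obtain ⟨k, s, hs, hks⟩ := Nat.exists_eq_pow_mul_and_not_dvd (orderOf_pos (dl c g)).ne' p
      hp.ne_one
    have hy : ((dl c g) ^ p ^ k)⁻¹ ∈ E := by
      apply E.inv_mem
      refine ⟨D.pow_mem (hall g) _, s, ((Nat.Prime.coprime_iff_not_dvd hp).2 hs).symm, ?_⟩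
      rw [← pow_mul, ← hks, pow_orderOf_eq_one]
    have hfin : Finite E := inferInstance
    let f : E → E := fun x => ⟨(dl c x) ^ p ^ k, E.pow_mem (hdE _ x.2) _⟩
    have hf : Function.Injective f := by
      intro x x' hxx
      have h1 : (dl c (x : Q)) ^ p ^ k = (dl c (x' : Q)) ^ p ^ k := congrArg Subtype.val hxx
      have hx := hDM _ (hED _ x.2)
      have hx' := hDM _ (hED _ x'.2)
      have h2 : (dl c ((x : Q) * (x' : Q)⁻¹)) ^ p ^ k = 1 := by
        have e0 : dl c ((x : Q)) = dl c ((x : Q) * (x' : Q)⁻¹) * dl c (x' : Q) := by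
          rw [← hmul _ (M.mul_mem hx (M.inv_mem hx')) _ hx', inv_mul_cancel_right]
        have hcm : Commute (dl c ((x : Q) * (x' : Q)⁻¹)) (dl c (x' : Q)) :=
          (hDc _ (hall _) _ (hDM _ (hall _)))
        rw [e0, hcm.mul_pow] at h1
        exact mul_eq_right.1 h1
      have h3 := hinj _ (E.mul_mem x.2 (E.inv_mem x'.2)) k h2
      exact Subtype.ext (mul_inv_eq_one.1 h3)
    obtain ⟨x, hx⟩ := Finite.surjective_of_injective hf ⟨_, hy⟩
    have hx' : (dl c (x : Q)) ^ p ^ k = ((dl c g) ^ p ^ k)⁻¹ := congrArg Subtype.val hx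
    have hgx : g * (x : Q) ∈ C := by
      refine ⟨k, ?_⟩
      have hxM := hDM _ (hED _ x.2)
      have e1 : (x : Q)⁻¹ * dl c g * x = dl c g := by
        rw [mul_assoc, ← hDc _ (hall g) _ hxM, inv_mul_cancel_left]
      have hcm : Commute (dl c g) (dl c (x : Q)) := (hDc _ (hall _) _ (hDM _ (hall _)))
      rw [dl_mul, e1, hcm.mul_pow, hx', mul_inv_cancel]
    have e2 : g = (g * (x : Q)) * (x : Q)⁻¹ := by group
    rw [e2]
    exact Subgroup.mul_mem_sup hgx (E.inv_mem x.2)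
  · rw [eq_bot_iff]
    rintro x ⟨⟨k, hk⟩, hx⟩
    exact hinj x hx k hk
  · intro m hm
    obtain ⟨k, s, hs, hks⟩ := Nat.exists_eq_pow_mul_and_not_dvd (orderOf_pos (dl c m)).ne' p
      hp.ne_one
    refine ⟨k, D.pow_mem (hall m) _, s, ((Nat.Prime.coprime_iff_not_dvd hp).2 hs).symm, ?_⟩
    rw [← pow_mul, ← hks, pow_orderOf_eq_one]

end Group

/-- an element of order `p` in a normal subgroup of order prime to `p` times `⟨c⟩` is conjugate to a
power of `c` -/
theorem syl {G : Type} [Group G] [Finite G] {p : ℕ} (hp : p.Prime) (N : Subgroup G)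
    (hN : N.Normal) (hNp : ¬ p ∣ Nat.card N) (c : G) (hc : orderOf c = p) (g : G)
    (hg : orderOf g = p) (k : ℕ) (hk : g * (c ^ k)⁻¹ ∈ N) :
    ∃ (h : G) (j : ℕ), h⁻¹ * g * h = c ^ j := by
  have : Fact p.Prime := ⟨hp⟩
  set K : Subgroup G := N ⊔ Subgroup.zpowers c with hK
  have hcK : c ∈ K := (le_sup_right : Subgroup.zpowers c ≤ K) (Subgroup.mem_zpowers c)
  have hgK : g ∈ K := by
    have e : g = (g * (c ^ k)⁻¹) * c ^ k := by group
    rw [e]
    exact K.mul_mem ((le_sup_left : N ≤ K) hk) (K.pow_mem hcK k)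
  have hcard : Nat.card K = Nat.card N * p := by
    have h1 : Nat.card K = N.relIndex K * Nat.card N := by
      have h := Subgroup.relIndex_mul_relIndex ⊥ N K bot_le le_sup_left
      rw [Subgroup.relIndex_bot_left, Subgroup.relIndex_bot_left] at h
      rw [← h, mul_comm]
    have h2 : N.relIndex K = p := by
      have h3 : N.relIndex K = N.relIndex (Subgroup.zpowers c) := by
        rw [hK, Subgroup.relIndex_sup_left]
      rw [h3]
      have h4 : N.relIndex (Subgroup.zpowers c) ∣ p := by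
        have := Subgroup.relIndex_dvd_card N (Subgroup.zpowers c)
        rwa [Nat.card_zpowers, hc] at this
      rcases (Nat.dvd_prime hp).1 h4 with h5 | h5
      · exfalso
        rw [Subgroup.relIndex_eq_one] at h5
        apply hNp
        have := Subgroup.card_dvd_of_le h5
        rwa [Nat.card_zpowers, hc] at this
      · exact h5
    rw [h1, h2, mul_comm]
  have hfac : p ^ (Nat.card K).factorization p = p := by
    rw [hcard, Nat.factorization_mul Nat.card_pos.ne' hp.ne_zero, Finsupp.add_apply,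
      Nat.factorization_eq_zero_of_not_dvd hNp, hp.factorization_self, zero_add, pow_one]
  have hcard' : ∀ x : K, orderOf (x : G) = p →
      Nat.card (Subgroup.zpowers x) = p ^ (Nat.card K).factorization p := by
    intro x hx
    rw [Nat.card_zpowers, hfac, ← hx, Subgroup.orderOf_coe]
  let P : Sylow p K := Sylow.ofCard (Subgroup.zpowers ⟨c, hcK⟩) (hcard' ⟨c, hcK⟩ hc)
  let R : Sylow p K := Sylow.ofCard (Subgroup.zpowers ⟨g, hgK⟩) (hcard' ⟨g, hgK⟩ hg)
  obtain ⟨x, hx⟩ := MulAction.exists_smul_eq K P R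
  have h1 : (⟨g, hgK⟩ : K) ∈ (R : Subgroup K) := Subgroup.mem_zpowers (⟨g, hgK⟩ : K)
  rw [← hx] at h1
  have h2 : (⟨g, hgK⟩ : K) ∈ (MulAut.conj x • (P : Subgroup K)) := h1
  rw [Subgroup.mem_pointwise_smul_iff_inv_smul_mem] at h2
  have h3 : (MulAut.conj x)⁻¹ • (⟨g, hgK⟩ : K) ∈ Subgroup.zpowers (⟨c, hcK⟩ : K) := h2
  rw [← mem_powers_iff_mem_zpowers] at h3
  obtain ⟨j, hj⟩ := h3
  refine ⟨(x : G), j, ?_⟩
  have h4 := congrArg Subtype.val hj
  rw [← map_inv] at h4
  simp only [SubmonoidClass.coe_pow, MulAut.smul_def, MulAut.conj_apply, Subgroup.coe_mul,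
    Subgroup.coe_inv, inv_inv] at h4
  exact h4.symm

theorem tde {n : ℕ} (hn : 2 ≤ n) (G : Subgroup (Equiv.Perm (Fin n)))
    (hG : MulAction.IsPretransitive G (Fin n)) {p : ℕ} (hp : p.Prime)
    (N : Subgroup G) (hN : N.Normal) (htow : Spec.GoodTower N) (hNp : ¬ p ∣ Nat.card N)
    (M : Subgroup G) (hM : M.Normal) (hNM : N ≤ M) (hi₀ : M.index = p)
    (c : G) (hc : c ∉ M) (hcp : orderOf c = p)
    (hcen : ∀ m ∈ M, ∀ m' ∈ M,
      m' * (m⁻¹ * c * m * c⁻¹) * m'⁻¹ * (m⁻¹ * c * m * c⁻¹)⁻¹ ∈ N)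
    (hleast : ∀ g : G, (g ≠ 1 ∧ ind (g : Equiv.Perm (Fin n)) = indG G) ↔
      (orderOf g = p ∧ ∃ (h : G) (k : ℕ), h⁻¹ * g * h = c ^ k)) :
    ∃ K₀ : IntermediateField ℚ QBar, FiniteDimensional ℚ K₀ ∧
      ∀ K : IntermediateField ℚ QBar, K₀ ≤ K → FiniteDimensional ℚ K →
        ∃ c : ℝ, 0 < c ∧ ∃ B₀ : ℝ, ∀ B : ℝ, B₀ ≤ B →
          ((⌈c * B ^ (1 / (indG G : ℝ)) * Real.log B ^ (betaAll G K - 1)⌉₊ : ℕ) : ℕ∞) ≤
            nK G K B := by
  have hfp : Fact p.Prime := ⟨hp⟩
  set π := QuotientGroup.mk' N with hπ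
  have hπs : Function.Surjective π := QuotientGroup.mk'_surjective N
  have hker : ∀ g : G, π g = 1 ↔ g ∈ N := fun g => QuotientGroup.eq_one_iff g
  have hMM : ∀ g : G, π g ∈ M.map π ↔ g ∈ M := by
    intro g
    constructor
    · rintro ⟨m, hm, h⟩
      have h1 : m⁻¹ * g ∈ N := by
        rw [← hker, map_mul, map_inv, h, inv_mul_cancel]
      have h2 := mul_mem hm (hNM h1)
      rwa [mul_inv_cancel_left] at h2
    · exact fun h => ⟨g, h, rfl⟩
  have hMn : (M.map π).Normal := hM.map π hπs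
  have hMi : (M.map π).index = p := by
    rw [Subgroup.index_map, QuotientGroup.ker_mk', sup_of_le_left hNM, hi₀,
      MonoidHom.range_eq_top.mpr hπs, Subgroup.index_top, mul_one]
  have hcp1 : c ^ p = 1 := by rw [← hcp, pow_orderOf_eq_one]
  have hdl : ∀ g : G, dl (π c) (π g) = π (g⁻¹ * c * g * c⁻¹) := by
    intro g
    unfold dl
    simp only [map_mul, map_inv]
  obtain ⟨E, C, hEn, hEM, hEc, hEo, hCE, hCE', hD⟩ := split hp (M.map π) hMn hMi (π c)
    (fun h => hc ((hMM c).1 h)) (by rw [← map_pow, hcp1, map_one]) (by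
      rintro _ ⟨m, hm, rfl⟩ _ ⟨m', hm', rfl⟩
      have h1 := (hker _).2 (hcen m hm m' hm')
      rw [map_mul, map_mul, map_mul, map_inv π m', map_inv, mul_inv_eq_one,
        mul_inv_eq_iff_eq_mul, ← hdl] at h1
      exact h1)
  have hNN : N ≤ E.comap π := by
    intro x hx
    rw [Subgroup.mem_comap, (hker x).2 hx]
    exact E.one_mem
  -- the orders
  have hEp : ∀ x ∈ E, x ^ p = 1 → x = 1 := by
    intro x hx h
    obtain ⟨s, hs, hxs⟩ := hEo x hx
    have h3 : orderOf x ∣ 1 := by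
      rw [← hs]
      exact Nat.dvd_gcd (orderOf_dvd_of_pow_eq_one hxs) (orderOf_dvd_of_pow_eq_one h)
    exact orderOf_eq_one_iff.1 (Nat.dvd_one.1 h3)
  have hEcard : ¬ p ∣ Nat.card E := by
    intro h
    obtain ⟨x, hx⟩ := exists_prime_orderOf_dvd_card' p h
    have h1 : (x : G ⧸ N) = 1 := hEp _ x.2 (by
      rw [← SubmonoidClass.coe_pow, ← hx, pow_orderOf_eq_one]; rfl)
    have h2 : x = 1 := Subtype.ext h1
    rw [h2, orderOf_one] at hx
    exact hp.one_lt.ne hx
  have hNp' : ¬ p ∣ Nat.card (E.comap π) := by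
    intro h
    obtain ⟨x, hx⟩ := exists_prime_orderOf_dvd_card' p h
    have h0 : (x : G) ^ p = 1 := by
      rw [← SubmonoidClass.coe_pow, ← hx, pow_orderOf_eq_one]; rfl
    have h1 : π (x : G) = 1 := hEp _ x.2 (by rw [← map_pow, h0, map_one])
    rw [hker] at h1
    apply hNp
    have h2 : orderOf (⟨(x : G), h1⟩ : N) = p := by
      rw [← Subgroup.orderOf_coe]
      change orderOf ((x : G)) = p
      rw [Subgroup.orderOf_coe, hx]
    rw [← h2]
    exact orderOf_dvd_natCard _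
  -- the tower
  have htow' : Spec.GoodTower (E.comap π) := by
    obtain ⟨r, L, hL0, hLr, hL⟩ := htow
    refine ⟨r + 1, fun i => if i = 0 then E.comap π else L (i - 1), ?_, ?_, ?_⟩
    · simp
    · simp [hLr]
    · intro i hi
      rcases Nat.eq_zero_or_pos i with rfl | hpos
      · simp only [zero_add, one_ne_zero, ↓reduceIte, Nat.sub_self, hL0]
        refine ⟨hNN, hN, ?_, Or.inr ⟨⟨C.comap π, ?_, ?_⟩, M, ?_, ?_⟩⟩
        · rw [Subgroup.commutator_le]
          intro a ha b hb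
          rw [← hker, map_commutatorElement, commutatorElement_eq_one_iff_mul_comm]
          exact hEc _ hb _ (hEM ha)
        · rw [Subgroup.comap_sup_eq _ _ _ hπs, hCE, Subgroup.comap_top]
        · rw [← Subgroup.comap_inf, hCE']
          ext x
          rw [Subgroup.mem_comap, Subgroup.mem_bot, hker]
        · intro g hg x hx
          rw [← hker]
          simp only [map_mul, map_inv]
          rw [hEc _ hx _ ((hMM g).2 hg)]
          group
        · rw [hi₀]
          have e : N.relIndex (E.comap π) = Nat.card E := by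
            have e1 : N = (⊥ : Subgroup (G ⧸ N)).comap π := by
              ext x
              rw [Subgroup.mem_comap, Subgroup.mem_bot, hker]
            have e2 : ((⊥ : Subgroup (G ⧸ N)).comap π).relIndex (E.comap π) = Nat.card E := by
              rw [Subgroup.relIndex_comap, Subgroup.map_comap_eq_self_of_surjective hπs,
                Subgroup.relIndex_bot_left]
            rw [← e2]
            congr 1
          rw [e]
          exact (Nat.Prime.coprime_iff_not_dvd hp).2 hEcard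
      · obtain ⟨j, rfl⟩ : ∃ j, i = j + 1 := ⟨i - 1, by omega⟩
        simp only [Nat.add_eq_zero_iff, one_ne_zero, and_false, ↓reduceIte, Nat.add_sub_cancel]
        exact hL j (by omega)
  refine tdg hn G hG hp (E.comap π) (hEn.comap π) htow' hNp' M hM ?_ hi₀ c hc ?_ ?_ ?_ ?_
  · intro x hx
    exact (hMM x).1 (hEM hx)
  · rw [hcp1]
    exact (E.comap π).one_mem
  · intro m hm m' hm'
    exact hNN (hcen m hm m' hm')
  · intro m hm
    obtain ⟨k, hk⟩ := hD (π m) ((hMM m).2 hm)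
    refine ⟨k, ?_⟩
    rw [Subgroup.mem_comap, map_pow, ← hdl]
    exact hk
  · intro g
    rw [hleast g]
    constructor
    · rintro ⟨h1, h, k, hk⟩
      exact ⟨h1, h, k, by rw [hk, mul_inv_cancel]; exact (E.comap π).one_mem⟩
    · rintro ⟨h1, h, k, hk⟩
      refine ⟨h1, ?_⟩
      have h2 : orderOf (h⁻¹ * g * h) = p := by
        have e : h⁻¹ * g * h = MulAut.conj h⁻¹ g := by
          rw [MulAut.conj_apply, inv_inv]
        rw [e, MulEquiv.orderOf_eq, h1]
      obtain ⟨x, j, hj⟩ := syl hp (E.comap π) (hEn.comap π) hNp' c hcp _ h2 k hk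
      exact ⟨h * x, j, by rw [← hj]; group⟩

end H77.UX
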