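import Pool.Agent.H77.UX.LOWD
import Pool.Agent.H77.UX.TDE

/-!
# H77-UX-LOWE: all elements of least index are conjugate to powers of one element, general case

`T` is generated by the elements of least index, `N ≤ M` are normal, `M` has index `p`, and `M`
centralises `M ∩ T` modulo `N`.
-/

set_option autoImplicit false

open scoped NumberField
open H38.ML

noncomputable section

namespace H77.UX

variable {n : ℕ}

/-- the subgroup generated by the elements of least index is normal -/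
theorem clos_normal (G : Subgroup (Equiv.Perm (Fin n))) :
    (Subgroup.closure {h : G | h ≠ 1 ∧ ind (h : Equiv.Perm (Fin n)) = indG G}).Normal := by
  constructor
  intro t ht w
  induction ht using Subgroup.closure_induction with
  | mem x hx => exact Subgroup.subset_closure (least_conj x w hx.1 hx.2)
  | one =>
    rw [mul_one, mul_inv_cancel]
    exact Subgroup.one_mem _
  | mul x y _ _ h1 h2 =>
    have e : w * (x * y) * w⁻¹ = (w * x * w⁻¹) * (w * y * w⁻¹) := by group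
    rw [e]
    exact Subgroup.mul_mem _ h1 h2
  | inv x _ h1 =>
    have e : w * x⁻¹ * w⁻¹ = (w * x * w⁻¹)⁻¹ := by group
    rw [e]
    exact Subgroup.inv_mem _ h1

theorem low_e (hn : 2 ≤ n) (G : Subgroup (Equiv.Perm (Fin n)))
    (hG : MulAction.IsPretransitive G (Fin n)) (c : G) (hc1 : c ≠ 1)
    (hci : ind (c : Equiv.Perm (Fin n)) = indG G)
    (hcj : ∀ g : G, g ≠ 1 → ind (g : Equiv.Perm (Fin n)) = indG G →
      ∃ (h : G) (k : ℕ), h⁻¹ * g * h = c ^ k)
    (N M : Subgroup G) (hN : N.Normal) (htow : Spec.GoodTower N)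
    (hNp : ¬ orderOf c ∣ Nat.card N) (hMn : M.Normal) (hNM : N ≤ M) (hi : M.index = orderOf c)
    (hM : ∀ m ∈ M, ∀ a ∈ M, a ∈ Subgroup.closure
      {h : G | h ≠ 1 ∧ ind (h : Equiv.Perm (Fin n)) = indG G} → m * a * m⁻¹ * a⁻¹ ∈ N) :
    ∃ K₀ : IntermediateField ℚ QBar, NumberField K₀ ∧
      ∀ K : IntermediateField ℚ QBar, K₀ ≤ K → ∀ _ : NumberField K,
        ∃ c B₀ : ℝ, 0 < c ∧ ∀ B : ℝ, B₀ ≤ B →
          ((⌈c * B ^ (1 / (indG G : ℝ)) * Real.log B ^ (Spec.betaAll K QBar G - 1)⌉₊ : ℕ) : ℕ∞) ≤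
            Spec.nK K QBar G B := by
  obtain ⟨p, ho⟩ : ∃ p, orderOf c = p := ⟨_, rfl⟩
  have hp : p.Prime := ho ▸ H38.ML.prime_of_least G c hc1 hci
  rw [ho] at hNp hi
  have hor : ∀ g : G, g ≠ 1 → ind (g : Equiv.Perm (Fin n)) = indG G → orderOf g = p := by
    intro g h1 h2
    obtain ⟨h, k, hk⟩ := hcj g h1 h2
    have e : g = h * c ^ k * h⁻¹ := by
      rw [← hk]
      group
    have : Fact p.Prime := ⟨hp⟩
    refine orderOf_eq_prime ?_ h1
    have e1 : (c ^ k) ^ p = 1 := by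
      rw [← pow_mul, mul_comm, pow_mul, ← ho, pow_orderOf_eq_one, one_pow]
    rw [e, conj_pow, e1]
    group
  set T : Subgroup G := Subgroup.closure
    {h : G | h ≠ 1 ∧ ind (h : Equiv.Perm (Fin n)) = indG G} with hT
  have hTn : T.Normal := clos_normal G
  have hcT : c ∈ T := Subgroup.subset_closure ⟨hc1, hci⟩
  apply to_spec hn G
  by_cases hcM : c ∈ M
  · have hTM : T ≤ M := by
      rw [hT, Subgroup.closure_le]
      rintro g ⟨h1, h2⟩
      obtain ⟨h, k, hk⟩ := hcj g h1 h2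
      have e : g = h * c ^ k * h⁻¹ := by
        rw [← hk]
        group
      rw [e]
      exact hMn.conj_mem _ (M.pow_mem hcM k) h
    set π := QuotientGroup.mk' N with hπ
    have hπs : Function.Surjective π := QuotientGroup.mk'_surjective N
    have hker : ∀ g : G, π g = 1 ↔ g ∈ N := fun g => QuotientGroup.eq_one_iff g
    have hTT : ⁅(T.map π).comap π, (T.map π).comap π⁆ ≤ N := by
      rw [Subgroup.commutator_le]
      rintro a ⟨t, ht, hta⟩ b ⟨u, hu, hub⟩
      rw [← hker, map_commutatorElement, ← hta, ← hub, commutatorElement_eq_one_iff_mul_comm]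
      have h1 := (hker _).2 (hM t (hTM ht) u (hTM hu) hu)
      simp only [map_mul, map_inv] at h1
      rw [mul_inv_eq_one, mul_inv_eq_iff_eq_mul] at h1
      exact h1
    have hl : ∀ g : G, g ≠ 1 → ind (g : Equiv.Perm (Fin n)) = indG G →
        g ∈ (T.map π).comap π ∧ Nat.Coprime (orderOf g) (Nat.card N) := by
      intro g h1 h2
      refine ⟨⟨g, Subgroup.subset_closure ⟨h1, h2⟩, rfl⟩, ?_⟩
      rw [hor g h1 h2]
      exact (Nat.Prime.coprime_iff_not_dvd hp).2 hNp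
    obtain ⟨K₀, hK₀, h⟩ := lower_bound hn G hG ((T.map π).comap π) N
      ((hTn.map π hπs).comap π) hN hTT
      (goodTower_of_spec htow)
      (realizable_of_spec (H36.RT.realizable_all (G ⧸ N)))
      ⟨⟨c, (hl c hc1 hci).1, hc1, hci, (hl c hc1 hci).2⟩⟩
    refine ⟨K₀, hK₀, fun K hK hKf => ?_⟩
    rw [← beta_eq_betaAll G K ((T.map π).comap π) N hl]
    exact h K hK hKf
  · refine tde hn G hG hp N hN htow hNp M hMn hNM hi c hcM ho ?_ ?_
    · intro m hm m' hm'
      refine hM m' hm' _ ?_ ?_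
      · have e : m⁻¹ * c * m * c⁻¹ = m⁻¹ * (c * m * c⁻¹) := by group
        rw [e]
        exact M.mul_mem (M.inv_mem hm) (hMn.conj_mem _ hm c)
      · have e : m⁻¹ * c * m * c⁻¹ = (m⁻¹ * c * (m⁻¹)⁻¹) * c⁻¹ := by group
        rw [e]
        exact T.mul_mem (hTn.conj_mem c hcT _) (T.inv_mem hcT)
    · intro g
      constructor
      · rintro ⟨h1, h2⟩
        exact ⟨hor g h1 h2, hcj g h1 h2⟩
      · rintro ⟨h1, h, k, hk⟩
        have hg1 := ne_one_of_order hp h1
        refine ⟨hg1, ?_⟩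
        have e : g = h * c ^ k * h⁻¹ := by
          rw [← hk]
          group
        have hpk : ¬ p ∣ k := by
          rintro ⟨j, rfl⟩
          rw [pow_mul, ← ho, pow_orderOf_eq_one, one_pow, mul_one, mul_inv_cancel] at e
          exact hg1 e
        have hF : Fx (g : Equiv.Perm (Fin n)) = Fx (c : Equiv.Perm (Fin n)) := by
          rw [e, Fx_conj, Fx_pow hp c ho k hpk]
        rw [← hci]
        apply le_antisymm
        · rw [ind_le_iff hp g c h1 ho, hF]
        · rw [ind_le_iff hp c g ho h1, hF]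

theorem up_e (hn : 2 ≤ n) (G : Subgroup (Equiv.Perm (Fin n)))
    (hG : MulAction.IsPretransitive G (Fin n)) (hnil : Group.IsNilpotent G) (c : G) (hc1 : c ≠ 1)
    (hci : ind (c : Equiv.Perm (Fin n)) = indG G)
    (N M : Subgroup G)
    (hNp : ¬ orderOf c ∣ Nat.card N) (hi : M.index = orderOf c)
    (hM : ∀ m ∈ M, ∀ a ∈ M, a ∈ Subgroup.closure
      {h : G | h ≠ 1 ∧ ind (h : Equiv.Perm (Fin n)) = indG G} → m * a * m⁻¹ * a⁻¹ ∈ N) :
    ∃ K₀ : IntermediateField ℚ QBar, NumberField K₀ ∧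
      ∀ K : IntermediateField ℚ QBar, K₀ ≤ K → ∀ _ : NumberField K,
        ∃ C B₀ : ℝ, 0 < C ∧ ∀ B : ℝ, B₀ ≤ B → ∃ k : ℕ,
          Spec.nK K QBar G B = (k : ℕ∞) ∧
          (k : ℝ) ≤ C * B ^ (1 / (indG G : ℝ)) *
            Real.log B ^ (Spec.betaAll K QBar G - 1) := by
  obtain ⟨p, ho⟩ : ∃ p, orderOf c = p := ⟨_, rfl⟩
  have hp : p.Prime := ho ▸ H38.ML.prime_of_least G c hc1 hci
  rw [ho] at hNp hi
  have hor : ∀ g : G, g ≠ 1 → ind (g : Equiv.Perm (Fin n)) = indG G → orderOf g = p := by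
    intro g h1 h2
    rw [trg hn hG hnil g c h1 hc1 h2 hci, ho]
  refine H77.GN.gmain_mx hn G hG hnil hp (fun g h1 h2 => ?_) M hi ?_
  · rw [← hor g h1 h2, pow_orderOf_eq_one]
  intro m hm a ha haT
  have : Fact p.Prime := ⟨hp⟩
  obtain ⟨S⟩ : Nonempty (Sylow p G) := inferInstance
  have hS : ∀ t ∈ Subgroup.closure {h : G | h ≠ 1 ∧ ind (h : Equiv.Perm (Fin n)) = indG G},
      t ∈ (S : Subgroup G) := by
    intro t ht
    refine (Subgroup.closure_le (S : Subgroup G)).2 ?_ ht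
    rintro g ⟨h1, h2⟩
    exact nil_mem hnil hp S ⟨1, by rw [pow_one, ← hor g h1 h2, pow_orderOf_eq_one]⟩
  have h1 : m * a * m⁻¹ * a⁻¹ ∈ (S : Subgroup G) := by
    refine (S : Subgroup G).mul_mem (hS _ ((clos_normal G).conj_mem a haT m))
      ((S : Subgroup G).inv_mem (hS _ haT))
  have h2 := hM m hm a ha haT
  obtain ⟨k, hk⟩ := S.isPGroup' ⟨_, h1⟩
  have hk' : (m * a * m⁻¹ * a⁻¹) ^ p ^ k = 1 := congrArg Subtype.val hk
  have h3 : orderOf (m * a * m⁻¹ * a⁻¹) ∣ 1 := by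
    have hcop : Nat.Coprime (Nat.card N) (p ^ k) :=
      ((Nat.Prime.coprime_iff_not_dvd hp).2 hNp).symm.pow_right k
    rw [← hcop]
    refine Nat.dvd_gcd ?_ (orderOf_dvd_of_pow_eq_one hk')
    rw [← Subgroup.orderOf_mk _ h2]
    exact orderOf_dvd_natCard _
  have h4 := orderOf_eq_one_iff.1 (Nat.dvd_one.1 h3)
  rw [mul_inv_eq_one, mul_inv_eq_iff_eq_mul] at h4
  exact h4

end H77.UX
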