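import Pool.Agent.H77.UX.LOW

/-!
# H77-UX-MAIN: the exact order for nilpotent transitive groups whose Sylow `p`-subgroup has an
abelian subgroup of index `p`, in every transitive representation
-/

set_option autoImplicit false

open scoped NumberField
open H38.ML

noncomputable section

namespace H77.UX

variable {n : ℕ}

theorem ux_low (hn : 2 ≤ n) (G : Subgroup (Equiv.Perm (Fin n)))
    (hG : MulAction.IsPretransitive G (Fin n)) (hnil : Group.IsNilpotent G) {p : ℕ} (hp : p.Prime)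
    (g₀ : G) (hg₀ : g₀ ≠ 1) (hi₀ : ind (g₀ : Equiv.Perm (Fin n)) = indG G) (hpg : p ∣ orderOf g₀)
    (S : Sylow p G) (A : Subgroup S) (hi : A.index = p) (hA : ∀ a ∈ A, ∀ b ∈ A, a * b = b * a) :
    ∃ K₀ : IntermediateField ℚ QBar, NumberField K₀ ∧
      ∀ K : IntermediateField ℚ QBar, K₀ ≤ K → ∀ _ : NumberField K,
        ∃ c B₀ : ℝ, 0 < c ∧ ∀ B : ℝ, B₀ ≤ B →
          ((⌈c * B ^ (1 / (indG G : ℝ)) * Real.log B ^ (Spec.betaAll K QBar G - 1)⌉₊ : ℕ) : ℕ∞) ≤
            Spec.nK K QBar G B := by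
  have ho₀ : orderOf g₀ = p := by
    have h1 := prime_of_least G g₀ hg₀ hi₀
    exact ((Nat.prime_dvd_prime_iff_eq hp h1).1 hpg).symm
  have hor : ∀ g : G, g ≠ 1 → ind (g : Equiv.Perm (Fin n)) = indG G → orderOf g = p := by
    intro g h1 h2
    rw [trg hn hG hnil g g₀ h1 hg₀ h2 hi₀, ho₀]
  have hpG : p ∣ Nat.card G := ho₀ ▸ orderOf_dvd_natCard g₀
  obtain ⟨f, D⟩ := nd_of hnil hp hpG S A hi hA
  by_cases hfix : ∃ y : G, orderOf y = p ∧ 0 < Fx (y : Equiv.Perm (Fin n))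
  · by_cases hin : ∀ y : G, orderOf y = p → 0 < Fx (y : Equiv.Perm (Fin n)) →
        y ∈ A.map (S : Subgroup G).subtype
    · -- case (ii)
      obtain ⟨y, hy, hFy⟩ := hfix
      refine low_ii hn G hG _ D.nA D.cA (fun g h1 h2 => ?_) g₀ hg₀ hi₀
      have h3 := hor g h1 h2
      refine hin g h3 (lt_of_lt_of_le hFy ?_)
      rw [← ind_le_iff hp g y h3 hy, h2]
      exact indG_le y (ne_one_of_order hp hy)
    · -- case (iii)
      push Not at hin
      obtain ⟨y, hy, hFy, hyA⟩ := hin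
      obtain ⟨x₀, hx₀⟩ : Nonempty {x : Fin n // (y : Equiv.Perm (Fin n)) x = x} := by
        by_contra hcon
        rw [not_nonempty_iff] at hcon
        have : Fx (y : Equiv.Perm (Fin n)) = 0 := by
          unfold Fx
          exact Nat.card_of_isEmpty
        omega
      exact low_iii hn G hG D hor g₀ hg₀ hi₀ y hy hyA x₀ hx₀
  · -- case (i)
    push Not at hfix
    refine low_i hn G hG hp S A hi hA D (fun g => ?_)
    constructor
    · intro hg
      refine ⟨ne_one_of_order hp hg, ?_⟩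
      have h1 : Fx (g : Equiv.Perm (Fin n)) = 0 := Nat.le_zero.1 (hfix g hg)
      have h2 : Fx (g₀ : Equiv.Perm (Fin n)) = 0 := Nat.le_zero.1 (hfix g₀ ho₀)
      rw [← hi₀]
      apply le_antisymm
      · rw [ind_le_iff hp g g₀ hg ho₀, h1, h2]
      · rw [ind_le_iff hp g₀ g ho₀ hg, h1, h2]
    · rintro ⟨h1, h2⟩
      exact hor g h1 h2

theorem ux_up (hn : 2 ≤ n) (G : Subgroup (Equiv.Perm (Fin n)))
    (hG : MulAction.IsPretransitive G (Fin n)) (hnil : Group.IsNilpotent G) {p : ℕ} (hp : p.Prime)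
    (g₀ : G) (hg₀ : g₀ ≠ 1) (hi₀ : ind (g₀ : Equiv.Perm (Fin n)) = indG G) (hpg : p ∣ orderOf g₀)
    (S : Sylow p G) (A : Subgroup S) (hi : A.index = p) (hA : ∀ a ∈ A, ∀ b ∈ A, a * b = b * a) :
    ∃ K₀ : IntermediateField ℚ QBar, NumberField K₀ ∧
      ∀ K : IntermediateField ℚ QBar, K₀ ≤ K → ∀ _ : NumberField K,
        ∃ C B₀ : ℝ, 0 < C ∧ ∀ B : ℝ, B₀ ≤ B → ∃ k : ℕ,
          Spec.nK K QBar G B = (k : ℕ∞) ∧
          (k : ℝ) ≤ C * B ^ (1 / (indG G : ℝ)) *
            Real.log B ^ (Spec.betaAll K QBar G - 1) := by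
  have ho₀ : orderOf g₀ = p := by
    have h1 := prime_of_least G g₀ hg₀ hi₀
    exact ((Nat.prime_dvd_prime_iff_eq hp h1).1 hpg).symm
  have hor : ∀ g : G, g ≠ 1 → ind (g : Equiv.Perm (Fin n)) = indG G → orderOf g = p := by
    intro g h1 h2
    rw [trg hn hG hnil g g₀ h1 hg₀ h2 hi₀, ho₀]
  have hpG : p ∣ Nat.card G := ho₀ ▸ orderOf_dvd_natCard g₀
  obtain ⟨f, D⟩ := nd_of hnil hp hpG S A hi hA
  refine H77.GN.gmain_mx hn G hG hnil hp (fun g h1 h2 => ?_)
    ((A.map (S : Subgroup G).subtype).comap f) D.idx ?_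
  · rw [← hor g h1 h2, pow_orderOf_eq_one]
  · intro m hm a ha haT
    have haS : a ∈ (S : Subgroup G) := by
      refine (Subgroup.closure_le (S : Subgroup G)).2 ?_ haT
      rintro g ⟨h1, h2⟩
      exact (D.memS g).1 ⟨1, by rw [pow_one, ← hor g h1 h2, pow_orderOf_eq_one]⟩
    have haA : a ∈ A.map (S : Subgroup G).subtype := by
      have h1 : f a ∈ A.map (S : Subgroup G).subtype := ha
      rwa [D.fx a haS] at h1
    have e1 : f ((f m)⁻¹ * m) = 1 := by
      rw [map_mul, map_inv, D.fx (f m) (D.fS m), inv_mul_cancel]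
    have e2 := D.com _ e1 a haS
    have e3 := D.cA (f m) hm a haA
    calc m * a = f m * ((f m)⁻¹ * m * a) := by group
      _ = f m * (a * ((f m)⁻¹ * m)) := by rw [e2]
      _ = (f m * a) * ((f m)⁻¹ * m) := by group
      _ = (a * f m) * ((f m)⁻¹ * m) := by rw [e3]
      _ = a * m := by group

end H77.UX
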