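import Pool.Agent.H38.BG.AMain
import Pool.Agent.H77.UX.MAIN
import Pool.Agent.H77.UX.LOWE
import Pool.Agent.H77.UX.CUBE
import Pool.Agent.H83.LX.ABP4

/-!
# H77-UX-FIN: the union of the results on the exact order of growth
-/

set_option autoImplicit false

open scoped NumberField
open H38.ML.Spec

noncomputable section

namespace H77.UX

/-- lower and upper bound of the same order -/
theorem combine (n : ℕ) (G : Subgroup (Equiv.Perm (Fin n)))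
    (hlo : ∃ K₀ : IntermediateField ℚ (AlgebraicClosure ℚ), NumberField K₀ ∧
      ∀ K : IntermediateField ℚ (AlgebraicClosure ℚ), K₀ ≤ K → ∀ _ : NumberField K,
        ∃ c B₀ : ℝ, 0 < c ∧ ∀ B : ℝ, B₀ ≤ B →
          ((⌈c * B ^ (1 / (indG G : ℝ)) *
              Real.log B ^ (betaAll K (AlgebraicClosure ℚ) G - 1)⌉₊ : ℕ) : ℕ∞) ≤
            nK K (AlgebraicClosure ℚ) G B)
    (hup : Group.IsNilpotent G → ∃ K₀ : IntermediateField ℚ (AlgebraicClosure ℚ), NumberField K₀ ∧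
      ∀ K : IntermediateField ℚ (AlgebraicClosure ℚ), K₀ ≤ K → ∀ _ : NumberField K,
        ∃ C B₀ : ℝ, 0 < C ∧ ∀ B : ℝ, B₀ ≤ B → ∃ k : ℕ,
          nK K (AlgebraicClosure ℚ) G B = (k : ℕ∞) ∧
          (k : ℝ) ≤ C * B ^ (1 / (indG G : ℝ)) *
            Real.log B ^ (betaAll K (AlgebraicClosure ℚ) G - 1)) :
    ∃ K₀ : IntermediateField ℚ (AlgebraicClosure ℚ), NumberField K₀ ∧
      ∀ K : IntermediateField ℚ (AlgebraicClosure ℚ), K₀ ≤ K → ∀ _ : NumberField K,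
        (∃ c : ℝ, 0 < c ∧ ∃ B₀ : ℝ, ∀ B : ℝ, B₀ ≤ B →
          ((⌈c * B ^ (1 / (indG G : ℝ)) *
              Real.log B ^ (betaAll K (AlgebraicClosure ℚ) G - 1)⌉₊ : ℕ) : ℕ∞) ≤
            nK K (AlgebraicClosure ℚ) G B) ∧
        (Group.IsNilpotent G → ∃ C : ℝ, 0 < C ∧ ∃ B₀ : ℝ, ∀ B : ℝ, B₀ ≤ B →
          nK K (AlgebraicClosure ℚ) G B ≤
            ((⌊C * B ^ (1 / (indG G : ℝ)) *
              Real.log B ^ (betaAll K (AlgebraicClosure ℚ) G - 1)⌋₊ : ℕ) : ℕ∞)) := by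
  obtain ⟨K₀, hK₀, h⟩ := hlo
  by_cases hnil : Group.IsNilpotent G
  · obtain ⟨K₁, hK₁, h₁⟩ := hup hnil
    refine ⟨K₀ ⊔ K₁, ?_, fun K hK hKf => ⟨?_, fun _ => ?_⟩⟩
    · haveI := hK₀.to_finiteDimensional
      haveI := hK₁.to_finiteDimensional
      exact NumberField.of_module_finite ℚ (K₀ ⊔ K₁ : IntermediateField ℚ (AlgebraicClosure ℚ))
    · obtain ⟨c, B₀, hc, hB⟩ := h K (le_sup_left.trans hK) hKf
      exact ⟨c, hc, B₀, hB⟩
    · obtain ⟨C, B₀, hC, hB₁⟩ := h₁ K (le_sup_right.trans hK) hKf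
      refine ⟨C, hC, B₀, fun B hB => ?_⟩
      obtain ⟨k, hk, hle⟩ := hB₁ B hB
      rw [hk]
      exact Nat.cast_le.2 (Nat.le_floor hle)
  · refine ⟨K₀, hK₀, fun K hK hKf => ⟨?_, fun h' => absurd h' hnil⟩⟩
    obtain ⟨c, B₀, hc, hB⟩ := h K hK hKf
    exact ⟨c, hc, B₀, hB⟩

/-- a Sylow subgroup of order at most `p ^ 4` has an abelian subgroup of index `p` -/
theorem syl_or {G : Type} [Group G] [Finite G] {p : ℕ} (hp : p.Prime) (hpG : p ∣ Nat.card G)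
    (h : ¬ p ^ 5 ∣ Nat.card G ∨
      ∃ (S : Sylow p G) (A : Subgroup S), A.index = p ∧ ∀ a ∈ A, ∀ b ∈ A, a * b = b * a) :
    ∃ (S : Sylow p G) (A : Subgroup S), A.index = p ∧ ∀ a ∈ A, ∀ b ∈ A, a * b = b * a := by
  rcases h with h | h
  · have : Fact p.Prime := ⟨hp⟩
    obtain ⟨S⟩ : Nonempty (Sylow p G) := inferInstance
    have hS : Nat.card S = p ^ (Nat.card G).factorization p := S.card_eq_multiplicity
    refine ⟨S, H83.LX.abp4 hp ?_ ?_ hS⟩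
    · exact (hp.factorization_pos_of_dvd Nat.card_pos.ne' hpG).ne'
    · by_contra hk
      exact h ((hp.pow_dvd_iff_le_factorization Nat.card_pos.ne').2 (by omega))
  · exact h

theorem fin_all
    (n : ℕ) (hn : 2 ≤ n) (G : Subgroup (Equiv.Perm (Fin n)))
    (hG : MulAction.IsPretransitive G (Fin n))
    (h : (∀ g : G, g ≠ 1 → ind (g : Equiv.Perm (Fin n)) = indG G →
        ∀ h k : G, k * (g * h * g⁻¹ * h⁻¹) = g * h * g⁻¹ * h⁻¹ * k) ∨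
      (∃ p : ℕ, p.Prime ∧ p ∣ Nat.card G ∧
        (∀ g : G, orderOf g = p ↔ g ≠ 1 ∧ ind (g : Equiv.Perm (Fin n)) = indG G) ∧
        ∃ (N : Subgroup G) (_ : N.Normal), GoodTower N ∧ ¬ p ∣ Nat.card N ∧
          ∃ (P F : Type) (_ : Group P) (_ : Group F) (_ : Finite P) (_ : Finite F)
            (_ : G ⧸ N ≃* P × F), IsPGroup p P ∧ ¬ p ∣ Nat.card F ∧
            ∃ A : Subgroup P, A.index = p ∧ ∀ a ∈ A, ∀ b ∈ A, a * b = b * a) ∨
      (Group.IsNilpotent G ∧ ∃ (p : ℕ) (c : G), p.Prime ∧ p ∣ orderOf c ∧ c ≠ 1 ∧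
        ind (c : Equiv.Perm (Fin n)) = indG G ∧
        (¬ p ^ 3 ∣ n ∨ ¬ p ^ 5 ∣ Nat.card G ∨
          ∃ (S : Sylow p G) (A : Subgroup S), A.index = p ∧ ∀ a ∈ A, ∀ b ∈ A, a * b = b * a)) ∨
      ∃ c : G, c ≠ 1 ∧ ind (c : Equiv.Perm (Fin n)) = indG G ∧
        (∀ g : G, g ≠ 1 → ind (g : Equiv.Perm (Fin n)) = indG G →
          ∃ (h : G) (k : ℕ), h⁻¹ * g * h = c ^ k) ∧
        ∃ N M : Subgroup G, N.Normal ∧ M.Normal ∧ N ≤ M ∧ GoodTower N ∧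
          ¬ orderOf c ∣ Nat.card N ∧ M.index = orderOf c ∧
          ∀ m ∈ M, ∀ a ∈ M, a ∈ Subgroup.closure
            {g : G | g ≠ 1 ∧ ind (g : Equiv.Perm (Fin n)) = indG G} → m * a * m⁻¹ * a⁻¹ ∈ N) :
    ∃ K₀ : IntermediateField ℚ (AlgebraicClosure ℚ), NumberField K₀ ∧
      ∀ K : IntermediateField ℚ (AlgebraicClosure ℚ), K₀ ≤ K → ∀ _ : NumberField K,
        (∃ c : ℝ, 0 < c ∧ ∃ B₀ : ℝ, ∀ B : ℝ, B₀ ≤ B →
          ((⌈c * B ^ (1 / (indG G : ℝ)) *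
              Real.log B ^ (betaAll K (AlgebraicClosure ℚ) G - 1)⌉₊ : ℕ) : ℕ∞) ≤
            nK K (AlgebraicClosure ℚ) G B) ∧
        (Group.IsNilpotent G → ∃ C : ℝ, 0 < C ∧ ∃ B₀ : ℝ, ∀ B : ℝ, B₀ ≤ B →
          nK K (AlgebraicClosure ℚ) G B ≤
            ((⌊C * B ^ (1 / (indG G : ℝ)) *
              Real.log B ^ (betaAll K (AlgebraicClosure ℚ) G - 1)⌋₊ : ℕ) : ℕ∞)) := by
  rcases h with hZ | ⟨p, hp, hpG, hleast, N, hN, htow, hNp, P, F, _, _, _, _, φ, hP, hFp, A, hi,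
    hA⟩ | ⟨hnil, p, c, hp, hpc, hc1, hci, hor⟩ |
    ⟨c, hc1, hci, hcj, N, M, hN, hM, hNM, htow, hNp, hi, hcen⟩
  · obtain ⟨K₀, hK₀, h⟩ := H38.BG.amain hn G hG hZ
    refine ⟨K₀, hK₀, fun K hK hKf => ?_⟩
    obtain ⟨⟨c, B₀, hc, hB⟩, hup⟩ := h K hK hKf
    refine ⟨⟨c, hc, B₀, hB⟩, fun hnil => ?_⟩
    obtain ⟨C, B₁, hC, hB₁⟩ := hup hnil
    refine ⟨C, hC, B₁, fun B hB => ?_⟩
    obtain ⟨k, hk, hle⟩ := hB₁ B hB
    rw [hk]
    exact Nat.cast_le.2 (Nat.le_floor hle)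
  · exact combine n G (H77.UN.lo_b hn G hG hp hpG hleast N hN htow hNp P F φ hP hFp A hi hA)
      (fun hnil => H77.UN.up_b hn G hG hnil hp hleast N hNp P F φ hFp A hi hA)
  · have hpG := hpc.trans (orderOf_dvd_natCard c)
    obtain ⟨S, A, hi, hA⟩ : ∃ (S : Sylow p G) (A : Subgroup S), A.index = p ∧
        ∀ a ∈ A, ∀ b ∈ A, a * b = b * a := by
      rcases hor with h | h
      · exact cube G hG hnil hp hpG (by omega) h
      · exact syl_or hp hpG h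
    exact combine n G (ux_low hn G hG hnil hp c hc1 hci hpc S A hi hA)
      (fun _ => ux_up hn G hG hnil hp c hc1 hci hpc S A hi hA)
  · exact combine n G (low_e hn G hG c hc1 hci hcj N M hN htow hNp hM hNM hi hcen)
      (fun hnil => up_e hn G hG hnil c hc1 hci N M hNp hi hcen)

end H77.UX
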