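import Pool.Agent.H77.UX.CASE

/-!
# H77-UX-LOW: the two bounds for nilpotent transitive groups whose Sylow `p`-subgroup has an abelian
subgroup of index `p` (see `CASE.lean` for the proof)
-/

set_option autoImplicit false

open scoped NumberField
open H38.ML

noncomputable section

namespace H77.UX

variable {n : ℕ}

theorem goodTower_bot {G : Type} [Group G] : Spec.GoodTower (⊥ : Subgroup G) :=
  ⟨0, fun _ => ⊥, rfl, rfl, fun i hi => absurd hi (Nat.not_lt_zero i)⟩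

/-- case (i): no element of order `p` has a fixed point -/
theorem low_i (hn : 2 ≤ n) (G : Subgroup (Equiv.Perm (Fin n)))
    (hG : MulAction.IsPretransitive G (Fin n)) {p : ℕ} (hp : p.Prime)
    (S : Sylow p G) (A : Subgroup S) (hi : A.index = p) (hA : ∀ a ∈ A, ∀ b ∈ A, a * b = b * a)
    {f : G →* G} (D : ND p (S : Subgroup G) (A.map (S : Subgroup G).subtype) f)
    (hleast : ∀ g : G, orderOf g = p ↔ g ≠ 1 ∧ ind (g : Equiv.Perm (Fin n)) = indG G) :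
    ∃ K₀ : IntermediateField ℚ QBar, NumberField K₀ ∧
      ∀ K : IntermediateField ℚ QBar, K₀ ≤ K → ∀ _ : NumberField K,
        ∃ c B₀ : ℝ, 0 < c ∧ ∀ B : ℝ, B₀ ≤ B →
          ((⌈c * B ^ (1 / (indG G : ℝ)) * Real.log B ^ (Spec.betaAll K QBar G - 1)⌉₊ : ℕ) : ℕ∞) ≤
            Spec.nK K QBar G B := by
  have : Fact p.Prime := ⟨hp⟩
  have hSn : (S : Subgroup G).Normal := D.nS
  have hpG : p ∣ Nat.card G := by
    obtain ⟨g, hg1, hg2⟩ : ∃ g : G, g ≠ 1 ∧ ind (g : Equiv.Perm (Fin n)) = indG G := by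
      refine exists_least G ?_
      rintro rfl
      obtain ⟨x, hx⟩ := MulAction.exists_smul_eq (⊥ : Subgroup (Equiv.Perm (Fin n)))
        (⟨0, by omega⟩ : Fin n) ⟨1, by omega⟩
      have h1 : x = 1 := Subtype.ext (Subgroup.mem_bot.1 x.2)
      rw [h1, one_smul] at hx
      exact absurd (congrArg Fin.val hx) (by norm_num)
    rw [← (hleast g).2 ⟨hg1, hg2⟩]
    exact orderOf_dvd_natCard g
  let ψ : G →* S × (G ⧸ (S : Subgroup G)) :=
    (f.codRestrict (S : Subgroup G) D.fS).prod (QuotientGroup.mk' (S : Subgroup G))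
  have hψ1 : ∀ x, ((ψ x).1 : G) = f x := fun x => rfl
  have hψ2 : ∀ x, (ψ x).2 = (x : G ⧸ (S : Subgroup G)) := fun x => rfl
  have inj : Function.Injective ψ := by
    rw [injective_iff_map_eq_one]
    intro x hx
    have h1 : f x = 1 := by
      rw [← hψ1, hx]
      rfl
    have h2 : (x : G ⧸ (S : Subgroup G)) = 1 := by
      rw [← hψ2, hx]
      rfl
    have h3 := (QuotientGroup.eq_one_iff x).1 h2
    rw [← D.fx x h3, h1]
  have surj : Function.Surjective ψ := by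
    rintro ⟨s, q⟩
    obtain ⟨g, rfl⟩ := QuotientGroup.mk_surjective q
    refine ⟨g * (f g)⁻¹ * s, Prod.ext (Subtype.ext ?_) ?_⟩
    · rw [hψ1, map_mul, map_mul, map_inv, D.fx (f g) (D.fS g), mul_inv_cancel, one_mul,
        D.fx s s.2]
    · rw [hψ2]
      change ((g * (f g)⁻¹ * s : G) : G ⧸ (S : Subgroup G)) = (g : G ⧸ (S : Subgroup G))
      rw [QuotientGroup.eq]
      have e1 : (g * (f g)⁻¹ * (s : G))⁻¹ * g = (s : G)⁻¹ * f g := by group
      rw [e1]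
      exact (S : Subgroup G).mul_mem ((S : Subgroup G).inv_mem s.2) (D.fS g)
  let φ : G ⧸ (⊥ : Subgroup G) ≃* S × (G ⧸ (S : Subgroup G)) :=
    (QuotientGroup.quotientBot (G := G)).trans (MulEquiv.ofBijective ψ ⟨inj, surj⟩)
  refine H77.UN.lo_b hn G hG hp hpG hleast ⊥ inferInstance goodTower_bot ?_ S
    (G ⧸ (S : Subgroup G)) φ S.isPGroup' ?_ A hi hA
  · rw [Subgroup.card_bot]
    exact hp.not_dvd_one
  · exact S.not_dvd_index

/-- the lower bound of the spec from the lower bound of `H38.ML` -/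
theorem to_spec (hn : 2 ≤ n) (G : Subgroup (Equiv.Perm (Fin n)))
    (h : ∃ K₀ : IntermediateField ℚ QBar, FiniteDimensional ℚ K₀ ∧
      ∀ K : IntermediateField ℚ QBar, K₀ ≤ K → FiniteDimensional ℚ K →
        ∃ c : ℝ, 0 < c ∧ ∃ B₀ : ℝ, ∀ B : ℝ, B₀ ≤ B →
          ((⌈c * B ^ (1 / (indG G : ℝ)) * Real.log B ^ (betaAll G K - 1)⌉₊ : ℕ) : ℕ∞) ≤
            nK G K B) :
    ∃ K₀ : IntermediateField ℚ QBar, NumberField K₀ ∧
      ∀ K : IntermediateField ℚ QBar, K₀ ≤ K → ∀ _ : NumberField K,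
        ∃ c B₀ : ℝ, 0 < c ∧ ∀ B : ℝ, B₀ ≤ B →
          ((⌈c * B ^ (1 / (indG G : ℝ)) * Real.log B ^ (Spec.betaAll K QBar G - 1)⌉₊ : ℕ) : ℕ∞) ≤
            Spec.nK K QBar G B := by
  obtain ⟨K₀, hK₀, h⟩ := h
  refine ⟨K₀, NumberField.of_module_finite ℚ K₀, fun K hK hKf => ?_⟩
  obtain ⟨c, hc, B₀, hB⟩ := h K hK hKf.to_finiteDimensional
  exact ⟨c, B₀, hc, fun B hBB => (hB B hBB).trans (nK_le_spec hn G K B)⟩

/-- case (ii): the elements of least index lie in an abelian normal subgroup -/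
theorem low_ii (hn : 2 ≤ n) (G : Subgroup (Equiv.Perm (Fin n)))
    (hG : MulAction.IsPretransitive G (Fin n)) (A : Subgroup G) (hA : A.Normal)
    (hAc : ∀ a ∈ A, ∀ b ∈ A, a * b = b * a)
    (hleast : ∀ g : G, g ≠ 1 → ind (g : Equiv.Perm (Fin n)) = indG G → g ∈ A)
    (g₀ : G) (hg₀ : g₀ ≠ 1) (hi₀ : ind (g₀ : Equiv.Perm (Fin n)) = indG G) :
    ∃ K₀ : IntermediateField ℚ QBar, NumberField K₀ ∧
      ∀ K : IntermediateField ℚ QBar, K₀ ≤ K → ∀ _ : NumberField K,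
        ∃ c B₀ : ℝ, 0 < c ∧ ∀ B : ℝ, B₀ ≤ B →
          ((⌈c * B ^ (1 / (indG G : ℝ)) * Real.log B ^ (Spec.betaAll K QBar G - 1)⌉₊ : ℕ) : ℕ∞) ≤
            Spec.nK K QBar G B := by
  apply to_spec hn G
  have hcop : ∀ g : G, Nat.Coprime (orderOf g) (Nat.card (⊥ : Subgroup G)) := by
    intro g
    rw [Subgroup.card_bot]
    exact Nat.coprime_one_right _
  have hl : ∀ g : G, g ≠ 1 → ind (g : Equiv.Perm (Fin n)) = indG G →
      g ∈ A ∧ Nat.Coprime (orderOf g) (Nat.card (⊥ : Subgroup G)) :=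
    fun g h1 h2 => ⟨hleast g h1 h2, hcop g⟩
  have hAA : ⁅A, A⁆ ≤ (⊥ : Subgroup G) := by
    rw [Subgroup.commutator_le]
    intro a ha b hb
    rw [Subgroup.mem_bot, commutatorElement_def, hAc a ha b hb]
    group
  obtain ⟨K₀, hK₀, h⟩ := lower_bound hn G hG A ⊥ hA inferInstance hAA
    (goodTower_of_spec goodTower_bot)
    (realizable_of_spec (H36.RT.realizable_all (G ⧸ (⊥ : Subgroup G))))
    ⟨⟨g₀, hleast g₀ hg₀ hi₀, hg₀, hi₀, hcop g₀⟩⟩
  refine ⟨K₀, hK₀, fun K hK hKf => ?_⟩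
  rw [← beta_eq_betaAll G K A ⊥ hl]
  exact h K hK hKf

/-- case (iii): a complement of order `p` -/
theorem low_iii (hn : 2 ≤ n) (G : Subgroup (Equiv.Perm (Fin n)))
    (hG : MulAction.IsPretransitive G (Fin n)) {p : ℕ} {S A : Subgroup G} {f : G →* G}
    (D : ND p S A f) (hor : ∀ g : G, g ≠ 1 → ind (g : Equiv.Perm (Fin n)) = indG G → orderOf g = p)
    (g₀ : G) (hg₀ : g₀ ≠ 1) (hi₀ : ind (g₀ : Equiv.Perm (Fin n)) = indG G)
    (y : G) (hy : orderOf y = p) (hyA : y ∉ A) (x₀ : Fin n) (hx₀ : y • x₀ = x₀) :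
    ∃ K₀ : IntermediateField ℚ QBar, NumberField K₀ ∧
      ∀ K : IntermediateField ℚ QBar, K₀ ≤ K → ∀ _ : NumberField K,
        ∃ c B₀ : ℝ, 0 < c ∧ ∀ B : ℝ, B₀ ≤ B →
          ((⌈c * B ^ (1 / (indG G : ℝ)) * Real.log B ^ (Spec.betaAll K QBar G - 1)⌉₊ : ℕ) : ℕ∞) ≤
            Spec.nK K QBar G B := by
  apply to_spec hn G
  have hp := D.hp
  have hyS : y ∈ S := (D.memS y).1 ⟨1, by rw [pow_one, ← hy, pow_orderOf_eq_one]⟩
  have hy0 : y ≠ 1 := ne_one_of_order hp hy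
  have hFy : 0 < Fx (y : Equiv.Perm (Fin n)) := by
    have : Nonempty {x : Fin n // (y : Equiv.Perm (Fin n)) x = x} := ⟨⟨x₀, hx₀⟩⟩
    exact Nat.card_pos
  -- all elements of order `p` with a fixed point are conjugate to powers of `y`
  have hcj : ∀ g : G, orderOf g = p → 0 < Fx (g : Equiv.Perm (Fin n)) →
      ∃ (h : G) (k : ℕ), h⁻¹ * g * h = y ^ k := by
    intro g hg hF
    obtain ⟨x, hx⟩ : Nonempty {x : Fin n // (g : Equiv.Perm (Fin n)) x = x} := by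
      by_contra hcon
      rw [not_nonempty_iff] at hcon
      have : Fx (g : Equiv.Perm (Fin n)) = 0 := by
        unfold Fx
        exact Nat.card_of_isEmpty
      omega
    exact stab_case hG D y hyS hyA x₀ hx₀ g hg x hx
  -- conjugates of powers have the same number of fixed points
  have hFc : ∀ g : G, orderOf g = p → ∀ (h : G) (k : ℕ), h⁻¹ * g * h = y ^ k →
      Fx (g : Equiv.Perm (Fin n)) = Fx (y : Equiv.Perm (Fin n)) := by
    intro g hg h k hk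
    have e1 : g = h * y ^ k * h⁻¹ := by
      rw [← hk]
      group
    have hpk : ¬ p ∣ k := by
      rintro ⟨j, rfl⟩
      rw [pow_mul, ← hy, pow_orderOf_eq_one, one_pow, mul_one, mul_inv_cancel] at e1
      exact ne_one_of_order hp hg e1
    rw [e1, Fx_conj, Fx_pow hp y hy k hpk]
  have ho₀ := hor g₀ hg₀ hi₀
  have hF₀ : Fx (y : Equiv.Perm (Fin n)) ≤ Fx (g₀ : Equiv.Perm (Fin n)) := by
    rw [← ind_le_iff hp g₀ y ho₀ hy, hi₀]
    exact indG_le y hy0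
  obtain ⟨h₀, k₀, hk₀⟩ := hcj g₀ ho₀ (lt_of_lt_of_le hFy hF₀)
  have hFg₀ := hFc g₀ ho₀ h₀ k₀ hk₀
  have hM : (A.comap f).Normal := D.nA.comap f
  -- the elements `m⁻¹ y m y⁻¹`
  have hcd : ∀ m ∈ A.comap f, m⁻¹ * (y * m * y⁻¹) ∈ A := by
    intro m hm
    have hdA : (f m)⁻¹ * (y * f m * y⁻¹) ∈ A :=
      A.mul_mem (A.inv_mem hm) (D.nA.conj_mem _ hm y)
    have e1 : f ((f m)⁻¹ * m) = 1 := by
      rw [map_mul, map_inv, D.fx (f m) (D.fS m), inv_mul_cancel]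
    have e2 := D.com _ e1 y⁻¹ (S.inv_mem hyS)
    have e3 := D.com _ e1 _ (D.AS hdA)
    have e4 : m⁻¹ * (y * m * y⁻¹) = (f m)⁻¹ * (y * f m * y⁻¹) := by
      calc m⁻¹ * (y * m * y⁻¹) =
          ((f m)⁻¹ * m)⁻¹ * (f m)⁻¹ * y * f m * (((f m)⁻¹ * m) * y⁻¹) := by group
        _ = ((f m)⁻¹ * m)⁻¹ * (f m)⁻¹ * y * f m * (y⁻¹ * ((f m)⁻¹ * m)) := by rw [e2]
        _ = ((f m)⁻¹ * m)⁻¹ * ((f m)⁻¹ * (y * f m * y⁻¹) * ((f m)⁻¹ * m)) := by group
        _ = ((f m)⁻¹ * m)⁻¹ * (((f m)⁻¹ * m) * ((f m)⁻¹ * (y * f m * y⁻¹))) := by rw [e3]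
        _ = _ := by group
    rw [e4]
    exact hdA
  refine tdb hn G hG hp (A.comap f) hM D.idx y ?_ ?_ ?_ ?_ ?_
  · rw [Subgroup.mem_comap, D.fx y hyS]
    exact hyA
  · rw [← hy, pow_orderOf_eq_one]
  · intro m hm m' hm'
    have h1 := hcd m hm
    set d := m⁻¹ * (y * m * y⁻¹)
    have e1 : f ((f m')⁻¹ * m') = 1 := by
      rw [map_mul, map_inv, D.fx (f m') (D.fS m'), inv_mul_cancel]
    have e2 := D.com _ e1 d (D.AS h1)
    have e3 := D.cA (f m') hm' d h1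
    calc m' * d = f m' * ((f m')⁻¹ * m' * d) := by group
      _ = f m' * (d * ((f m')⁻¹ * m')) := by rw [e2]
      _ = (f m' * d) * ((f m')⁻¹ * m') := by group
      _ = (d * f m') * ((f m')⁻¹ * m') := by rw [e3]
      _ = d * m' := by group
  · intro m hm
    exact (D.memS _).2 (D.AS (hcd m hm))
  · intro g
    constructor
    · rintro ⟨h1, h2⟩
      have h3 := hor g h1 h2
      refine ⟨h3, hcj g h3 ?_⟩
      refine lt_of_lt_of_le hFy ?_
      rw [← ind_le_iff hp g y h3 hy, h2]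
      exact indG_le y hy0
    · rintro ⟨h1, h, k, hk⟩
      refine ⟨ne_one_of_order hp h1, ?_⟩
      have h2 := hFc g h1 h k hk
      rw [← hi₀]
      apply le_antisymm
      · rw [ind_le_iff hp g g₀ h1 ho₀, h2, hFg₀]
      · rw [ind_le_iff hp g₀ g ho₀ h1, h2, hFg₀]

end H77.UX
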