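import Pool.Agent.H77.UX.LOW
import Pool.Agent.H77.AB.GAx

/-!
# H77-UX-LOWD: the lower bound if all elements of least index are conjugate to powers of one element

`T` is generated by the elements of least index, `M` has index `p` and centralises `M ∩ T`. If `c ∈ M` then
`T ≤ M` is abelian (`low_ii`); otherwise `tdb`: `m⁻¹ (c m c⁻¹)` lies in `M ∩ T`.
-/

set_option autoImplicit false

open scoped NumberField
open H38.ML

noncomputable section

namespace H77.UX

variable {n : ℕ}

/-- the index is invariant under conjugation -/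
theorem least_conj {G : Subgroup (Equiv.Perm (Fin n))} (g h : G) (hg : g ≠ 1)
    (hi : ind (g : Equiv.Perm (Fin n)) = indG G) :
    h * g * h⁻¹ ≠ 1 ∧ ind ((h * g * h⁻¹ : G) : Equiv.Perm (Fin n)) = indG G := by
  constructor
  · intro h1
    apply hg
    have h2 : g = h⁻¹ * (h * g * h⁻¹) * h := by group
    rw [h2, h1, mul_one, inv_mul_cancel]
  · rw [← hi]
    unfold ind
    have h1 := orbs_conj (g : Equiv.Perm (Fin n)) (h : Equiv.Perm (Fin n))
    change n - orbs (Subgroup.zpowers ((h : Equiv.Perm (Fin n)) * (g : Equiv.Perm (Fin n)) *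
      (h : Equiv.Perm (Fin n))⁻¹)) = _
    rw [h1]

theorem low_d (hn : 2 ≤ n) (G : Subgroup (Equiv.Perm (Fin n)))
    (hG : MulAction.IsPretransitive G (Fin n)) (hnil : Group.IsNilpotent G) {p : ℕ} (hp : p.Prime)
    (c : G) (hc1 : c ≠ 1) (hci : ind (c : Equiv.Perm (Fin n)) = indG G) (hpc : p ∣ orderOf c)
    (hcj : ∀ g : G, g ≠ 1 → ind (g : Equiv.Perm (Fin n)) = indG G →
      ∃ (h : G) (k : ℕ), h⁻¹ * g * h = c ^ k)
    (M : Subgroup G) (hi : M.index = p)
    (hM : ∀ m ∈ M, ∀ a ∈ M, a ∈ Subgroup.closure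
      {h : G | h ≠ 1 ∧ ind (h : Equiv.Perm (Fin n)) = indG G} → m * a = a * m) :
    ∃ K₀ : IntermediateField ℚ QBar, NumberField K₀ ∧
      ∀ K : IntermediateField ℚ QBar, K₀ ≤ K → ∀ _ : NumberField K,
        ∃ c B₀ : ℝ, 0 < c ∧ ∀ B : ℝ, B₀ ≤ B →
          ((⌈c * B ^ (1 / (indG G : ℝ)) * Real.log B ^ (Spec.betaAll K QBar G - 1)⌉₊ : ℕ) : ℕ∞) ≤
            Spec.nK K QBar G B := by
  have ho : orderOf c = p := by
    have h1 := prime_of_least G c hc1 hci
    exact ((Nat.prime_dvd_prime_iff_eq hp h1).1 hpc).symm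
  have hor : ∀ g : G, g ≠ 1 → ind (g : Equiv.Perm (Fin n)) = indG G → orderOf g = p := by
    intro g h1 h2
    rw [trg hn hG hnil g c h1 hc1 h2 hci, ho]
  have hMn : M.Normal := H77.AB.gax_normal hnil hp M hi
  set T : Subgroup G := Subgroup.closure
    {h : G | h ≠ 1 ∧ ind (h : Equiv.Perm (Fin n)) = indG G} with hT
  have hTn : T.Normal := by
    constructor
    intro t ht w
    rw [hT] at ht ⊢
    induction ht using Subgroup.closure_induction with
    | mem x hx => exact Subgroup.subset_closure (least_conj x w hx.1 hx.2)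
    | one =>
      rw [mul_one, mul_inv_cancel]
      exact Subgroup.one_mem _
    | mul x y _ _ h1 h2 =>
      have e : w * (x * y) * w⁻¹ = (w * x * w⁻¹) * (w * y * w⁻¹) := by group
      rw [e]
      exact Subgroup.mul_mem _ h1 h2
    | inv x _ h1 =>
      have e : w * x⁻¹ * w⁻¹ = (w * x * w⁻¹)⁻¹ := by group
      rw [e]
      exact Subgroup.inv_mem _ h1
  have hcT : c ∈ T := Subgroup.subset_closure ⟨hc1, hci⟩
  by_cases hcM : c ∈ M
  · have hTM : T ≤ M := by
      rw [hT, Subgroup.closure_le]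
      rintro g ⟨h1, h2⟩
      obtain ⟨h, k, hk⟩ := hcj g h1 h2
      have e : g = h * c ^ k * h⁻¹ := by
        rw [← hk]
        group
      rw [e]
      exact hMn.conj_mem _ (M.pow_mem hcM k) h
    exact low_ii hn G hG T hTn (fun a ha b hb => hM a (hTM ha) b (hTM hb) hb)
      (fun g h1 h2 => Subgroup.subset_closure ⟨h1, h2⟩) c hc1 hci
  · apply to_spec hn G
    have hd : ∀ m ∈ M, m⁻¹ * (c * m * c⁻¹) ∈ M ∧ m⁻¹ * (c * m * c⁻¹) ∈ T := by
      intro m hm
      refine ⟨M.mul_mem (M.inv_mem hm) (hMn.conj_mem _ hm c), ?_⟩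
      have e : m⁻¹ * (c * m * c⁻¹) = (m⁻¹ * c * (m⁻¹)⁻¹) * c⁻¹ := by group
      rw [e]
      exact T.mul_mem (hTn.conj_mem c hcT _) (T.inv_mem hcT)
    have hTp : ∀ t ∈ T, ∃ k : ℕ, t ^ p ^ k = 1 := by
      intro t ht
      have : Fact p.Prime := ⟨hp⟩
      obtain ⟨S⟩ : Nonempty (Sylow p G) := inferInstance
      have htS : t ∈ (S : Subgroup G) := by
        refine (Subgroup.closure_le (S : Subgroup G)).2 ?_ ht
        rintro g ⟨h1, h2⟩
        exact nil_mem hnil hp S ⟨1, by rw [pow_one, ← hor g h1 h2, pow_orderOf_eq_one]⟩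
      obtain ⟨k, hk⟩ := S.isPGroup' ⟨t, htS⟩
      exact ⟨k, congrArg Subtype.val hk⟩
    refine tdb hn G hG hp M hMn hi c hcM ?_ ?_ ?_ ?_
    · rw [← ho, pow_orderOf_eq_one]
    · intro m hm m' hm'
      exact hM m' hm' _ (hd m hm).1 (hd m hm).2
    · intro m hm
      exact hTp _ (hd m hm).2
    · intro g
      constructor
      · rintro ⟨h1, h2⟩
        exact ⟨hor g h1 h2, hcj g h1 h2⟩
      · rintro ⟨h1, h, k, hk⟩
        have hg1 := ne_one_of_order hp h1
        refine ⟨hg1, ?_⟩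
        have e : g = h * c ^ k * h⁻¹ := by
          rw [← hk]
          group
        have hpk : ¬ p ∣ k := by
          rintro ⟨j, rfl⟩
          rw [pow_mul, ← ho, pow_orderOf_eq_one, one_pow, mul_one, mul_inv_cancel] at e
          exact hg1 e
        have hF : Fx (g : Equiv.Perm (Fin n)) = Fx (c : Equiv.Perm (Fin n)) := by
          rw [e, Fx_conj, Fx_pow hp c ho k hpk]
        rw [← hci]
        apply le_antisymm
        · rw [ind_le_iff hp g c h1 ho, hF]
        · rw [ind_le_iff hp c g ho h1, hF]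

end H77.UX
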