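import Pool.Agent.H38.ML.Final2
import Pool.Agent.H38.ML.SpecBridge
import Pool.Agent.H36.RT.Final
import Pool.Agent.H83.LX.TDX

/-!
# H77-UX-TDB: the lower bound for `P = A ⋊ ⟨c⟩` in degree `|A|` (from `H83.LX.tdx` with `N = ⊥`)
-/

set_option autoImplicit false

open scoped NumberField
open H38.ML

noncomputable section

namespace H77.UX

/-- `H83.LX.tdx`, without the hypothesis of realizability (`H36.RT.realizable_all`) -/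
theorem tdg {n : ℕ} (hn : 2 ≤ n) (G : Subgroup (Equiv.Perm (Fin n)))
    (hG : MulAction.IsPretransitive G (Fin n)) {p : ℕ} (hp : p.Prime)
    (N : Subgroup G) (hN : N.Normal) (htow : Spec.GoodTower N) (hNp : ¬ p ∣ Nat.card N)
    (M : Subgroup G) (hM : M.Normal) (hNM : N ≤ M) (hi : M.index = p)
    (c : G) (hc : c ∉ M) (hcp : c ^ p ∈ N)
    (hcen : ∀ m ∈ M, ∀ m' ∈ M,
      m' * (m⁻¹ * c * m * c⁻¹) * m'⁻¹ * (m⁻¹ * c * m * c⁻¹)⁻¹ ∈ N)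
    (hD : ∀ m ∈ M, ∃ k : ℕ, (m⁻¹ * c * m * c⁻¹) ^ p ^ k ∈ N)
    (hleast : ∀ g : G, (g ≠ 1 ∧ ind (g : Equiv.Perm (Fin n)) = indG G) ↔
      (orderOf g = p ∧ ∃ (h : G) (k : ℕ), h⁻¹ * g * h * (c ^ k)⁻¹ ∈ N)) :
    ∃ K₀ : IntermediateField ℚ QBar, FiniteDimensional ℚ K₀ ∧
      ∀ K : IntermediateField ℚ QBar, K₀ ≤ K → FiniteDimensional ℚ K →
        ∃ c : ℝ, 0 < c ∧ ∃ B₀ : ℝ, ∀ B : ℝ, B₀ ≤ B →
          ((⌈c * B ^ (1 / (indG G : ℝ)) * Real.log B ^ (betaAll G K - 1)⌉₊ : ℕ) : ℕ∞) ≤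
            nK G K B :=
  H83.LX.tdx hn G hG hp N hN (goodTower_of_spec htow) hNp M hM hNM hi
    (realizable_of_spec (H36.RT.realizable_all (M.map (QuotientGroup.mk' N)))) c hc hcp hcen hD
    hleast

theorem tdb {n : ℕ} (hn : 2 ≤ n) (G : Subgroup (Equiv.Perm (Fin n)))
    (hG : MulAction.IsPretransitive G (Fin n)) {p : ℕ} (hp : p.Prime) (M : Subgroup G)
    (hM : M.Normal) (hi : M.index = p) (c : G) (hc : c ∉ M) (hcp : c ^ p = 1)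
    (hcen : ∀ m ∈ M, ∀ m' ∈ M, m' * (m⁻¹ * (c * m * c⁻¹)) = m⁻¹ * (c * m * c⁻¹) * m')
    (hD : ∀ m ∈ M, ∃ k : ℕ, (m⁻¹ * (c * m * c⁻¹)) ^ p ^ k = 1)
    (hleast : ∀ g : G, (g ≠ 1 ∧ ind (g : Equiv.Perm (Fin n)) = indG G) ↔
      orderOf g = p ∧ ∃ (h : G) (k : ℕ), h⁻¹ * g * h = c ^ k) :
    ∃ K₀ : IntermediateField ℚ QBar, FiniteDimensional ℚ K₀ ∧
      ∀ K : IntermediateField ℚ QBar, K₀ ≤ K → FiniteDimensional ℚ K →
        ∃ c : ℝ, 0 < c ∧ ∃ B₀ : ℝ, ∀ B : ℝ, B₀ ≤ B →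
          ((⌈c * B ^ (1 / (indG G : ℝ)) * Real.log B ^ (betaAll G K - 1)⌉₊ : ℕ) : ℕ∞) ≤
            nK G K B := by
  have e1 : ∀ m : G, m⁻¹ * c * m * c⁻¹ = m⁻¹ * (c * m * c⁻¹) := fun m => by group
  refine tdg hn G hG hp ⊥ inferInstance
    ⟨0, fun _ => ⊥, rfl, rfl, fun i hi => absurd hi (Nat.not_lt_zero i)⟩ ?_ M hM bot_le hi c hc
    (by rw [Subgroup.mem_bot]; exact hcp) ?_ ?_ ?_
  · rw [Subgroup.card_bot]
    exact hp.not_dvd_one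
  · intro m hm m' hm'
    rw [Subgroup.mem_bot, e1, mul_inv_eq_one, mul_inv_eq_iff_eq_mul]
    exact hcen m hm m' hm'
  · intro m hm
    obtain ⟨k, hk⟩ := hD m hm
    exact ⟨k, by rw [Subgroup.mem_bot, e1]; exact hk⟩
  · intro g
    rw [hleast g]
    simp only [Subgroup.mem_bot, mul_inv_eq_one]

end H77.UX
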